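import Pool.Agent.Lib.MP_d54a3f_ag.Defs

/-! Graded bookkeeping: homogeneous ideals, Hilbert functions, saturation, chains of primes. -/

open MvPolynomial Module

namespace Pool.Agent.Lib.MP_d54a3f_ag

variable {k : Type*} [Field k]

attribute [local instance] MvPolynomial.gradedAlgebra

theorem comp_eq (n : ℕ) (f : S k) :
    (DirectSum.decompose (homogeneousSubmodule (Fin 4) k) f n : S k) = homogeneousComponent n f :=
  decomposition.decompose'_apply f n

theorem isHom_iff {I : Ideal (S k)} :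
    IsHom I ↔ I.IsHomogeneous (homogeneousSubmodule (Fin 4) k) := by
  refine ⟨fun h n f hf ↦ ?_, fun h f hf n ↦ homogeneousComponent_mem_of_mem h hf n⟩
  rw [comp_eq]
  exact h f hf n

theorem comp_mul {a : S k} {d : ℕ} (ha : a.IsHomogeneous d) (n : ℕ) (g : S k) :
    homogeneousComponent (d + n) (a * g) = a * homogeneousComponent n g := by
  rw [← comp_eq, ← comp_eq]
  exact DirectSum.coe_decompose_mul_add_of_left_mem _ ha

theorem comp_mul_lt {a : S k} {d : ℕ} (ha : a.IsHomogeneous d) {n : ℕ} (h : n < d) (g : S k) :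
    homogeneousComponent n (a * g) = 0 := by
  rw [← comp_eq]
  exact DirectSum.coe_decompose_mul_of_left_mem_of_not_le _ ha (by omega)

theorem comp_self {a : S k} {d : ℕ} (ha : a.IsHomogeneous d) : homogeneousComponent d a = a :=
  homogeneousComponent_eq_self ha

theorem IsHom.mem_of_comp {I : Ideal (S k)} {f : S k}
    (h : ∀ n, homogeneousComponent n f ∈ I) : f ∈ I := by
  rw [← sum_homogeneousComponent f]
  exact Ideal.sum_mem _ fun n _ ↦ h n

theorem IsHom.sup {I J : Ideal (S k)} (hI : IsHom I) (hJ : IsHom J) : IsHom (I ⊔ J) :=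
  isHom_iff.2 ((isHom_iff.1 hI).sup (isHom_iff.1 hJ))

theorem IsHom.inf {I J : Ideal (S k)} (hI : IsHom I) (hJ : IsHom J) : IsHom (I ⊓ J) :=
  isHom_iff.2 ((isHom_iff.1 hI).inf (isHom_iff.1 hJ))

theorem isHom_span {s : Set (S k)} (h : ∀ x ∈ s, ∃ n, x.IsHomogeneous n) :
    IsHom (Ideal.span s) :=
  isHom_iff.2 (Ideal.homogeneous_span _ s h)

theorem isHom_span1 {a : S k} {d : ℕ} (ha : a.IsHomogeneous d) : IsHom (Ideal.span {a}) :=
  isHom_span fun x hx ↦ ⟨d, by rw [Set.mem_singleton_iff.1 hx]; exact ha⟩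

theorem mem_sup_span {I : Ideal (S k)} {a f : S k} :
    f ∈ I ⊔ Ideal.span {a} ↔ ∃ g, f - a * g ∈ I := by
  rw [Submodule.mem_sup]
  constructor
  · rintro ⟨p, hp, q, hq, rfl⟩
    obtain ⟨g, rfl⟩ := Ideal.mem_span_singleton'.1 hq
    exact ⟨g, by convert hp using 1; ring⟩
  · rintro ⟨g, hg⟩
    exact ⟨_, hg, a * g, Ideal.mul_mem_right _ _ (Ideal.mem_span_singleton_self a), by ring⟩

theorem mem_sup_span_self (I : Ideal (S k)) (a : S k) : a ∈ I ⊔ Ideal.span {a} :=
  Ideal.mem_sup_right (Ideal.mem_span_singleton_self a)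

/-- a homogeneous element of `I + (a)` -/
theorem mem_sup_span_hom {I : Ideal (S k)} (hI : IsHom I) {a f : S k} {d n : ℕ}
    (ha : a.IsHomogeneous d) (hf : f.IsHomogeneous (d + n)) (h : f ∈ I ⊔ Ideal.span {a}) :
    ∃ g : S k, g.IsHomogeneous n ∧ f - a * g ∈ I := by
  obtain ⟨g, hg⟩ := mem_sup_span.1 h
  refine ⟨_, homogeneousComponent_isHomogeneous n g, ?_⟩
  have := hI _ hg (d + n)
  rwa [map_sub, comp_mul ha, comp_self hf] at this

theorem mem_sup_span_lt {I : Ideal (S k)} (hI : IsHom I) {a f : S k} {d n : ℕ}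
    (ha : a.IsHomogeneous d) (hf : f.IsHomogeneous n) (hn : n < d)
    (h : f ∈ I ⊔ Ideal.span {a}) : f ∈ I := by
  obtain ⟨g, hg⟩ := mem_sup_span.1 h
  have := hI _ hg n
  rwa [map_sub, comp_mul_lt ha hn, comp_self hf, sub_zero] at this

/-- the colon ideal `I : a` -/
noncomputable def col (I : Ideal (S k)) (a : S k) : Ideal (S k) := I.colon {a}

theorem mem_col {I : Ideal (S k)} {a f : S k} : f ∈ col I a ↔ a * f ∈ I := by
  rw [col, Submodule.mem_colon_singleton, smul_eq_mul, mul_comm]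

theorem IsHom.col {I : Ideal (S k)} (hI : IsHom I) {a : S k} {d : ℕ} (ha : a.IsHomogeneous d) :
    IsHom (col I a) := by
  intro f hf n
  rw [mem_col] at hf ⊢
  rw [← comp_mul ha]
  exact hI _ hf _

theorem le_col (I : Ideal (S k)) (a : S k) : I ≤ col I a :=
  fun _ hf ↦ mem_col.2 (I.mul_mem_left a hf)

/-! ### Hilbert functions -/

instance finite_hom (n : ℕ) : Module.Finite k (homogeneousSubmodule (Fin 4) k n) :=
  Module.Finite.iff_fg.2 (homogeneousSubmodule_fg (Fin 4) k n)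

/-- the degree `n` part of an ideal -/
noncomputable def part (I : Ideal (S k)) (n : ℕ) : Submodule k (S k) :=
  homogeneousSubmodule (Fin 4) k n ⊓ I.restrictScalars k

theorem mem_part {I : Ideal (S k)} {n : ℕ} {f : S k} :
    f ∈ part I n ↔ f.IsHomogeneous n ∧ f ∈ I := Iff.rfl

instance finite_part (I : Ideal (S k)) (n : ℕ) : Module.Finite k (part I n) :=
  Submodule.finiteDimensional_of_le (inf_le_left : part I n ≤ _)

/-- dimension of a subspace -/
noncomputable def dm (p : Submodule k (S k)) : ℕ := finrank k p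

theorem hilb_add (I : Ideal (S k)) (n : ℕ) :
    hilb I n + dm (part I n) = dm (homogeneousSubmodule (Fin 4) k n) := by
  have h := LinearMap.finrank_range_add_finrank_ker
    ((Ideal.Quotient.mkₐ k I).toLinearMap.domRestrict (homogeneousSubmodule (Fin 4) k n))
  rw [LinearMap.range_domRestrict] at h
  refine Eq.trans ?_ h
  rw [hilb]
  congr 1
  refine Eq.trans (congrArg dm ?_) (Submodule.finrank_map_subtype_eq _ _)
  ext f
  simp only [mem_part, Submodule.mem_map, LinearMap.mem_ker, LinearMap.domRestrict_apply,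
    AlgHom.toLinearMap_apply, Ideal.Quotient.mkₐ_eq_mk, Ideal.Quotient.eq_zero_iff_mem,
    Submodule.subtype_apply]
  exact ⟨fun ⟨h1, h2⟩ ↦ ⟨⟨f, h1⟩, h2, rfl⟩, fun ⟨y, h1, h2⟩ ↦ h2 ▸ ⟨y.2, h1⟩⟩

theorem part_mono {I J : Ideal (S k)} (h : I ≤ J) (n : ℕ) : part I n ≤ part J n :=
  fun _ hf ↦ ⟨hf.1, h hf.2⟩

theorem hilb_anti {I J : Ideal (S k)} (h : I ≤ J) (n : ℕ) : hilb J n ≤ hilb I n := by
  have : dm (part I n) ≤ dm (part J n) := Submodule.finrank_mono (part_mono h n)
  have h1 := hilb_add I n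
  have h2 := hilb_add J n
  omega

theorem hilb_lt {I J : Ideal (S k)} (h : I ≤ J) {n : ℕ} {f : S k} (hf : f.IsHomogeneous n)
    (h1 : f ∈ J) (h2 : f ∉ I) : hilb J n < hilb I n := by
  have : part I n < part J n := lt_of_le_of_ne (part_mono h n) fun e ↦
    h2 (show f ∈ part I n from e ▸ ⟨hf, h1⟩).2
  have : dm (part I n) < dm (part J n) := Submodule.finrank_lt_finrank_of_lt this
  have h1 := hilb_add I n
  have h2 := hilb_add J n
  omega

theorem hilb_congr {I J : Ideal (S k)} {n : ℕ}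
    (h : ∀ f : S k, f.IsHomogeneous n → (f ∈ I ↔ f ∈ J)) : hilb I n = hilb J n := by
  have : part I n = part J n := by
    ext f
    exact and_congr_right (h f)
  have h1 := hilb_add I n
  have h2 := hilb_add J n
  rw [this] at h1
  omega

theorem hilb_eq_zero_iff {I : Ideal (S k)} {n : ℕ} :
    hilb I n = 0 ↔ ∀ f : S k, f.IsHomogeneous n → f ∈ I := by
  have h1 := hilb_add I n
  constructor
  · intro h f hf
    have : part I n = homogeneousSubmodule (Fin 4) k n :=
      Submodule.eq_of_le_of_finrank_eq inf_le_left (by change dm (part I n) = dm _; omega)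
    exact (show f ∈ part I n from this ▸ hf).2
  · intro h
    have : part I n = homogeneousSubmodule (Fin 4) k n :=
      le_antisymm inf_le_left fun f hf ↦ ⟨hf, h f hf⟩
    rw [this] at h1
    omega

theorem hilb_zero_sup {I : Ideal (S k)} (hI : IsHom I) {w : S k} (hw : w.IsHomogeneous 1) :
    hilb I 0 = hilb (I ⊔ Ideal.span {w}) 0 :=
  hilb_congr fun _ hf ↦ ⟨Ideal.mem_sup_left, mem_sup_span_lt hI hw hf one_pos⟩

theorem hilb_succ {I : Ideal (S k)} (hI : IsHom I) {w : S k} (hw : w.IsHomogeneous 1)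
    (hw0 : w ≠ 0) (n : ℕ) :
    hilb I (n + 1) = hilb (col I w) n + hilb (I ⊔ Ideal.span {w}) (n + 1) := by
  set μ : S k →ₗ[k] S k := LinearMap.mulLeft k w with hμ
  have hinj : Function.Injective μ := fun a b h ↦ mul_left_cancel₀ hw0 h
  have e1 : part (I ⊔ Ideal.span {w}) (n + 1) =
      part I (n + 1) ⊔ (homogeneousSubmodule (Fin 4) k n).map μ := by
    refine le_antisymm (fun f hf ↦ ?_) (sup_le (part_mono le_sup_left _) ?_)
    · obtain ⟨g, hg, h⟩ := mem_sup_span_hom hI hw (add_comm n 1 ▸ hf.1) hf.2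
      refine Submodule.mem_sup.2 ⟨f - w * g, ⟨hf.1.sub (add_comm n 1 ▸ hw.mul hg), h⟩, w * g,
        ⟨g, hg, rfl⟩, by ring⟩
    · rintro _ ⟨g, hg, rfl⟩
      exact ⟨add_comm n 1 ▸ hw.mul hg, Ideal.mul_mem_right _ _ (mem_sup_span_self I w)⟩
  have e2 : part I (n + 1) ⊓ (homogeneousSubmodule (Fin 4) k n).map μ =
      (part (col I w) n).map μ := by
    refine le_antisymm ?_ ?_
    · rintro _ ⟨h1, g, hg, rfl⟩
      exact ⟨g, ⟨hg, mem_col.2 h1.2⟩, rfl⟩
    · rintro _ ⟨g, hg, rfl⟩
      exact ⟨⟨add_comm n 1 ▸ hw.mul hg.1, mem_col.1 hg.2⟩, g, hg.1, rfl⟩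
  have h : dm _ + dm _ = dm _ + dm _ := Submodule.finrank_sup_add_finrank_inf_eq (part I (n + 1))
    ((homogeneousSubmodule (Fin 4) k n).map μ)
  have e3 (p : Submodule k (S k)) : dm (p.map μ) = dm p :=
    (Submodule.equivMapOfInjective μ hinj p).finrank_eq.symm
  rw [← e1, e2, e3, e3] at h
  have h1 := hilb_add I (n + 1)
  have h2 := hilb_add (I ⊔ Ideal.span {w}) (n + 1)
  have h3 := hilb_add (col I w) n
  omega

theorem col_eq {I : Ideal (S k)} {w : S k} (h : ∀ f, w * f ∈ I → f ∈ I) : col I w = I :=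
  le_antisymm (fun f hf ↦ h f (mem_col.1 hf)) (le_col I w)

/-- Hilbert functions are determined by a regular hyperplane section -/
theorem hilb_eq_of_section {I J : Ideal (S k)} (hI : IsHom I) (hJ : IsHom J) {w : S k}
    (hw : w.IsHomogeneous 1) (hw0 : w ≠ 0) (h1 : ∀ f, w * f ∈ I → f ∈ I)
    (h2 : ∀ f, w * f ∈ J → f ∈ J) (h : I ⊔ Ideal.span {w} = J ⊔ Ideal.span {w}) :
    hilb I = hilb J := by
  funext n
  induction n with
  | zero => rw [hilb_zero_sup hI hw, hilb_zero_sup hJ hw, h]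
  | succ n ih => rw [hilb_succ hI hw hw0, hilb_succ hJ hw hw0, col_eq h1, col_eq h2, ih, h]

theorem hvec_congr {I J : Ideal (S k)} (h : hilb I = hilb J) : hvec I = hvec J := by
  funext n
  simp only [hvec, h]

/-- the `h`-vector is the Hilbert function of the Artinian reduction -/
theorem hvec_eq {I : Ideal (S k)} (hI : IsHom I) {a b : S k} (ha : a.IsHomogeneous 1)
    (hb : b.IsHomogeneous 1) (ha0 : a ≠ 0) (hb0 : b ≠ 0) (h1 : ∀ f, a * f ∈ I → f ∈ I)
    (h2 : ∀ f, b * f ∈ I ⊔ Ideal.span {a} → f ∈ I ⊔ Ideal.span {a}) (n : ℕ) :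
    hvec I n = hilb ((I ⊔ Ideal.span {a}) ⊔ Ideal.span {b}) n := by
  have hI' := hI.sup (isHom_span1 ha)
  have s1 (m : ℕ) := hilb_succ hI ha ha0 m
  have s2 (m : ℕ) := hilb_succ hI' hb hb0 m
  have z1 := hilb_zero_sup hI ha
  have z2 := hilb_zero_sup hI' hb
  rw [col_eq h1] at s1
  rw [col_eq h2] at s2
  rcases n with _ | _ | n
  · simp [hvec, z1, z2]
  · have := s1 0
    have := s2 0
    simp only [hvec, zero_add, le_refl, if_true, tsub_self, Nat.not_ofNat_le_one, if_false] at *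
    omega
  · have := s1 (n + 1)
    have := s1 n
    have := s2 (n + 1)
    simp only [hvec, le_add_iff_nonneg_left, zero_le, if_true, add_tsub_cancel_right,
      show 2 ≤ n + 1 + 1 by omega, show n + 1 + 1 - 2 = n by omega]
    omega

/-- strict comparison of Hilbert functions with the same hyperplane section -/
theorem hilb_lt_of_section {I J : Ideal (S k)} (hI : IsHom I) (hJ : IsHom J) {w : S k}
    (hw : w.IsHomogeneous 1) (hw0 : w ≠ 0) (h1 : ¬ ∀ f, w * f ∈ I → f ∈ I)
    (h2 : ∀ f, w * f ∈ J → f ∈ J) (h : I ⊔ Ideal.span {w} = J ⊔ Ideal.span {w}) :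
    ∀ᶠ n in Filter.atTop, hilb I n < hilb J n := by
  have hle (n : ℕ) : hilb I n ≤ hilb J n := by
    induction n with
    | zero => rw [hilb_zero_sup hI hw, hilb_zero_sup hJ hw, h]
    | succ n ih =>
      rw [hilb_succ hI hw hw0, hilb_succ hJ hw hw0, col_eq h2, h]
      have := hilb_anti (le_col I w) n
      omega
  push Not at h1
  obtain ⟨f, hf1, hf2⟩ := h1
  obtain ⟨m, hm⟩ : ∃ m, homogeneousComponent m f ∉ I := by
    by_contra hc
    push Not at hc
    exact hf2 (IsHom.mem_of_comp hc)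
  have hlt := hilb_lt (le_col I w) (homogeneousComponent_isHomogeneous m f)
    (hI.col hw f (mem_col.2 hf1) m) hm
  refine Filter.eventually_atTop.2 ⟨m + 1, fun n hn ↦ ?_⟩
  induction n, hn using Nat.le_induction with
  | base =>
    rw [hilb_succ hI hw hw0, hilb_succ hJ hw hw0, col_eq h2, h]
    have := hle m
    omega
  | succ n _ ih =>
    rw [hilb_succ hI hw hw0, hilb_succ hJ hw hw0, col_eq h2, h]
    have := hilb_anti (le_col I w) n
    omega

/-! ### ideals without zeros, saturation -/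

/-- the ideal has no zero in projective space -/
def Prim (J : Ideal (S k)) : Prop := ∀ i, (X i : S k) ∈ J.radical

/-- saturated ideals -/
def Sat (I : Ideal (S k)) : Prop := ∀ u, (∀ i, X i * u ∈ I) → u ∈ I

theorem Prim.mono {I J : Ideal (S k)} (h : Prim I) (hle : I ≤ J) : Prim J :=
  fun i ↦ Ideal.radical_mono hle (h i)

theorem Prim.of_le_radical {I J : Ideal (S k)} (h : Prim I) (hle : I ≤ J.radical) : Prim J :=
  fun i ↦ (Ideal.radical_le_radical_iff.2 hle) (h i)

theorem Prim.deg {J : Ideal (S k)} (h : Prim J) :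
    ∃ N, ∀ n, N ≤ n → ∀ f : S k, f.IsHomogeneous n → f ∈ J := by
  have h1 : Ideal.span (Set.range (X : Fin 4 → S k)) ≤ J.radical :=
    Ideal.span_le.2 (by rintro _ ⟨i, rfl⟩; exact h i)
  obtain ⟨N, hN⟩ := Ideal.exists_pow_le_of_le_radical_of_fg h1
    (IsNoetherian.noetherian _)
  refine ⟨N, fun n hn f hf ↦ hN (Ideal.pow_le_pow_right hn ?_)⟩
  exact (Ideal.mem_span_pow_iff_exists_isHomogeneous _ _).2
    ⟨map C f, hf.map C, by rw [eval_map, eval₂_eta]⟩

theorem Sat.mem {I : Ideal (S k)} (hI : Sat I) {u : S k} (h : Prim (col I u)) : u ∈ I := by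
  obtain ⟨N, hN⟩ := h.deg
  have key : ∀ n, (∀ f : S k, f.IsHomogeneous n → u * f ∈ I) → u ∈ I := by
    intro n
    induction n with
    | zero => exact fun h ↦ by simpa using h 1 (isHomogeneous_one _ _)
    | succ n ih =>
      refine fun h ↦ ih fun f hf ↦ hI _ fun i ↦ ?_
      have := h (f * X i) (hf.mul (isHomogeneous_X k i))
      convert this using 1
      ring
  exact key N fun f hf ↦ mem_col.1 (hN N le_rfl f hf)

end Pool.Agent.Lib.MP_d54a3f_ag
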