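import Pool.Agent.Lib.MP_d54a3f_ag.Pencil

/-! General plane sections of finitely many irreducible surfaces. -/

open MvPolynomial Module

namespace Pool.Agent.Lib.MP_d54a3f_ag

variable {k : Type*} [Field k] {ι : Type*} {F T : ι → S k} {𝒬 : Set (Ideal (S k))}
  {M N : Matrix (Fin 4) (Fin 4) k}

/-- a good plane exists -/
def Bert (F T : ι → S k) (𝒬 : Set (Ideal (S k))) : Prop :=
  ∃ φ : Fr k, (∀ i, Prime (φ.pw (F i)) ∧ T i ∉ Ideal.span {F i} ⊔ Ideal.span {φ.w}) ∧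
    ∀ Q ∈ 𝒬, φ.w ∉ Q

structure Hyp (F T : ι → S k) (𝒬 : Set (Ideal (S k))) : Prop where
  pr : ∀ i, Prime (F i)
  hom : ∀ i, ∃ f, (F i).IsHomogeneous f
  nd : ∀ i, ¬ F i ∣ T i
  fin : 𝒬.Finite
  q : ∀ Q ∈ 𝒬, Q.IsPrime ∧ (∃ i, F i ∈ Q) ∧ ¬ mm k ≤ Q

theorem lm_lm (h : N * M = 1) (f : S k) : lm M (lm N f) = f := DFunLike.congr_fun (lm_comp h) f

theorem Bert.transport (h : N * M = 1) (H : Bert (fun i ↦ lm M (F i)) (fun i ↦ lm M (T i))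
    ((fun Q ↦ Q.comap (lm N)) '' 𝒬)) : Bert F T 𝒬 := by
  obtain ⟨φ, h1, h2⟩ := H
  let ψ : Fr k := ⟨Matrix.vecMul φ.c N, M.mulVec φ.o, by
    change _ ⬝ᵥ _ = _
    rw [← Matrix.dotProduct_mulVec, Matrix.mulVec_mulVec, h, Matrix.one_mulVec]
    exact φ.h⟩
  have e0 : ψ.w = lm N φ.w := (lm_lin N φ.c).symm
  have e1 : lm M ψ.w = φ.w := by rw [e0, lm_lm h]
  have e2 : (lm M).comp ψ.pw = φ.pw.comp (lm M) := by
    ext i : 1
    simp only [AlgHom.comp_apply, Fr.pw_X, map_sub, map_mul, e1, algHom_C, lm_X, lin, map_sum,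
      algebraMap_eq, mul_sub, Finset.sum_sub_distrib, ψ, Matrix.mulVec, dotProduct,
      Finset.sum_mul, mul_assoc]
  refine ⟨ψ, fun i ↦ ⟨?_, fun hT ↦ (h1 i).2 ?_⟩, fun Q hQ hw ↦ h2 _ ⟨Q, hQ, rfl⟩ ?_⟩
  · rw [← MulEquiv.prime_iff (le h), le_apply]
    exact (DFunLike.congr_fun e2 (F i)).symm ▸ (h1 i).1
  · obtain ⟨g, hg⟩ := mem_sup_span.1 hT
    obtain ⟨c, hc⟩ := Ideal.mem_span_singleton'.1 hg
    refine mem_sup_span.2 ⟨lm M g, Ideal.mem_span_singleton'.2 ⟨lm M c, ?_⟩⟩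
    rw [← e1, ← map_mul, hc, map_sub, map_mul]
  · rwa [Ideal.mem_comap, ← e0]

theorem Hyp.transport (h : N * M = 1) (H : Hyp F T 𝒬) :
    Hyp (fun i ↦ lm M (F i)) (fun i ↦ lm M (T i)) ((fun Q ↦ Q.comap (lm N)) '' 𝒬) := by
  have h' := mul_eq_one_comm.1 h
  refine ⟨fun i ↦ (MulEquiv.prime_iff (le h)).2 (H.pr i), fun i ↦ (H.hom i).imp fun _ ↦ lm_hom M,
    fun i e ↦ H.nd i (by simpa only [lm_lm h'] using map_dvd (lm N) e), H.fin.image _, ?_⟩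
  rintro _ ⟨Q, hQ, rfl⟩
  obtain ⟨h1, ⟨i, h2⟩, h3⟩ := H.q Q hQ
  refine ⟨Ideal.comap_isPrime _ _, ⟨i, by rwa [Ideal.mem_comap, lm_lm h']⟩, fun e ↦ h3 (mm_le
    fun j ↦ ?_)⟩
  have := e (hom_mem_mm (lm_hom M (isHomogeneous_X k j)) one_ne_zero)
  rwa [Ideal.mem_comap, lm_lm h'] at this

variable [IsAlgClosed k] [Fintype ι]

theorem bert3 (H : Hyp F T 𝒬) (h0 : ∀ i, eval (Pi.single 0 1) (F i) ≠ 0)
    (h1 : ∀ i, ∃ c, eval ![c, 0, 0, 1] (F i) = 0 ∧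
      eval ![c, 0, 0, 1] (pderiv 0 (F i) * T i) ≠ 0)
    (h2 : ∀ Q ∈ 𝒬, X 1 ∈ Q → X 2 ∉ Q) : Bert F T 𝒬 := by
  choose c hc hc' using h1
  simp only [map_mul, mul_ne_zero_iff] at hc'
  obtain ⟨a, ha⟩ := ((Set.finite_iUnion fun i ↦ pencil (H.hom i).choose_spec (H.pr i) (h0 i) (hc i)
    (hc' i).1).union (avoid H.fin h2)).exists_notMem
  simp only [Set.mem_union, Set.mem_iUnion, Set.mem_ofPred_eq, not_or, not_exists, not_not,
    not_and] at ha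
  refine ⟨fr a, fun i ↦ ⟨ha.1 i, fun hT ↦ (hc' i).2 ?_⟩, fun Q hQ ↦ fr_w a ▸ ha.2 Q hQ⟩
  obtain ⟨g, hg⟩ := mem_sup_span.1 hT
  obtain ⟨e, he⟩ := Ideal.mem_span_singleton'.1 hg
  simpa [hc, fr_w] using (congrArg (eval ![c i, 0, 0, 1]) he).symm

theorem exists_disc {F D : S k} {f : ℕ} (hF : F.IsHomogeneous f) (hp : Prime F)
    (h0 : eval (Pi.single 0 1) F ≠ 0) (hD : ¬ F ∣ D) : ∃ d : A3 k, d ≠ 0 ∧ ∀ u, eval u d ≠ 0 →
      ∃ c, eval (Fin.cons c u) F = 0 ∧ eval (Fin.cons c u) D ≠ 0 := by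
  have hu : IsUnit (C (eval (Pi.single 0 1) F)⁻¹ : S k) := (IsUnit.mk0 _ (inv_ne_zero h0)).map C
  obtain ⟨hm, hd⟩ := monic_e (hF.C_mul (eval (Pi.single 0 1) F)⁻¹) (by simp [h0])
  obtain ⟨d, hd0, a, b, e⟩ := bez hm ((MulEquiv.irreducible_iff (finSuccEquiv k 3)).2
    ((prime_isUnit_mul hu).2 hp).irreducible) (G := finSuccEquiv k 3 D) fun e ↦
      hD (hu.mul_left_dvd.1 ((map_dvd_iff _).1 e))
  refine ⟨d, hd0, fun u hu' ↦ ?_⟩
  obtain ⟨c, hc⟩ := IsAlgClosed.exists_root _ (show (Polynomial.map (eval u) _).degree ≠ 0 by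
    rw [hm.degree_map, Polynomial.degree_eq_natDegree hm.ne_zero, hd]
    exact_mod_cast deg_pos hp hF)
  have e1 := congrArg (fun p ↦ Polynomial.eval c (Polynomial.map (eval u) p)) e
  simp only [Polynomial.map_add, Polynomial.map_mul, Polynomial.eval_add, Polynomial.eval_mul,
    Polynomial.map_C, Polynomial.eval_C, hc.eq_zero, mul_zero, zero_add,
    ← eval_eq_eval_mv_eval'] at e1
  have e2 := hc.eq_zero
  rw [← eval_eq_eval_mv_eval', map_mul, eval_C] at e2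
  exact ⟨c, (mul_eq_zero.1 e2).resolve_left (inv_ne_zero h0), fun z ↦ hu' (by rw [e1, z, mul_zero])⟩

theorem bert2 (H : Hyp F T 𝒬) (h0 : ∀ i, eval (Pi.single 0 1) (F i) ≠ 0)
    (h1 : ∀ i, pderiv 0 (F i) ≠ 0) : Bert F T 𝒬 := by
  have h2 (i : ι) : ¬ F i ∣ pderiv 0 (F i) * T i := fun e ↦ by
    obtain ⟨f, hf⟩ := H.hom i
    obtain ⟨c, hc⟩ := ((H.pr i).dvd_or_dvd e).resolve_right (H.nd i)
    have h3 := hf.pderiv.totalDegree (h1 i)
    have h4 := deg_pos (H.pr i) hf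
    rw [hc, totalDegree_mul_of_isDomain (H.pr i).ne_zero fun z ↦ h1 i (by rw [hc, z, mul_zero]),
      hf.totalDegree (H.pr i).ne_zero] at h3
    omega
  choose d hd hd' using fun i ↦ exists_disc (H.hom i).choose_spec (H.pr i) (h0 i) (h2 i)
  have hB := avoid (H.fin.subset (Set.sep_subset _ fun Q ↦ ∃ b, X 2 + C b * X 3 ∈ Q))
    (x := X 1) (y := X 3) fun Q ⟨hQ, b, hb⟩ k1 k3 ↦ by
      obtain ⟨q1, ⟨i, q2⟩, q3⟩ := H.q Q hQ
      have k2 : X 2 ∈ Q := by simpa using Q.sub_mem hb (Q.mul_mem_left (C b) k3)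
      refine q3 (mm_le (all_X_mem q1 (t := X 0) (fun j ↦ ?_) (H.hom i).choose_spec q2 (h0 i)))
      fin_cases j <;> simp [k1, k2, k3]
  obtain ⟨u, hu⟩ := exists_eval_ne (f := (∏ i, d i) * X 2 * ∏ b ∈ hB.toFinset, (X 0 + C b * X 2))
    (mul_ne_zero (mul_ne_zero (Finset.prod_ne_zero_iff.2 fun i _ ↦ hd i) (X_ne_zero _))
      (Finset.prod_ne_zero_iff.2 fun b _ z ↦ by simpa using congrArg (eval ![1, 0, 0]) z))
  simp only [map_mul, map_prod, mul_ne_zero_iff, Finset.prod_ne_zero_iff, eval_X, map_add,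
    eval_C] at hu
  obtain ⟨⟨u1, u2⟩, u3⟩ := hu
  let M : Matrix (Fin 4) (Fin 4) k := !![1, 0, 0, 0; 0, 1, 0, u 0; 0, 0, 1, u 1; 0, 0, 0, u 2]
  let N : Matrix (Fin 4) (Fin 4) k :=
    !![1, 0, 0, 0; 0, 1, 0, -(u 0 / u 2); 0, 0, 1, -(u 1 / u 2); 0, 0, 0, (u 2)⁻¹]
  have h : N * M = 1 := by
    ext i j
    fin_cases i <;> fin_cases j <;> simp [M, N, Matrix.mul_apply, Fin.sum_univ_four, u2]
  have e0 : M.mulVec (Pi.single 0 1) = Pi.single 0 1 := by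
    ext i
    fin_cases i <;> simp [M]
  have e1 (c : k) : M.mulVec ![c, 0, 0, 1] = Fin.cons c u := by
    ext i
    fin_cases i <;> simp [M, Matrix.mulVec, dotProduct, Fin.sum_univ_four] <;> rfl
  have e2 (G : S k) : pderiv 0 (lm M G) = lm M (pderiv 0 G) := by
    simp [pderiv_lm, M, Fin.sum_univ_four]
  refine Bert.transport h (bert3 (H.transport h) (fun i ↦ by rw [eval_lm, e0]; exact h0 i)
    (fun i ↦ ?_) ?_)
  · simp only [e2, ← map_mul, eval_lm, e1]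
    exact hd' i u (u1 i (Finset.mem_univ i))
  · rintro _ ⟨Q, hQ, rfl⟩ k1 k2
    rw [Ideal.mem_comap, lm_X] at k1 k2
    refine u3 (-(u 0 / u 2)) (hB.mem_toFinset.2 ⟨Q, ⟨hQ, -(u 1 / u 2), ?_⟩, ?_⟩) (by simp [u2])
    · simpa [lin, N, Fin.sum_univ_four] using k2
    · simpa [lin, N, Fin.sum_univ_four] using k1

theorem bertini (H : Hyp F T 𝒬) : Bert F T 𝒬 := by
  choose j hj using fun i ↦ exists_pderiv (H.pr i).irreducible
  choose m hm using fun i ↦ ne_zero_iff.1 (hj i)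
  obtain ⟨v, hv⟩ := exists_eval_ne
    (f := (∏ i, (F i * lin fun l ↦ coeff (m i) (pderiv l (F i)))) * X 0)
    (mul_ne_zero (Finset.prod_ne_zero_iff.2 fun i _ ↦ mul_ne_zero (H.pr i).ne_zero fun z ↦ hm i (by
      simpa [eval_lin, Pi.single_apply] using congrArg (eval (Pi.single (j i) 1)) z)) (X_ne_zero _))
  simp only [map_mul, map_prod, mul_ne_zero_iff, Finset.prod_ne_zero_iff, eval_X, eval_lin] at hv
  obtain ⟨v1, v2⟩ := hv
  let M : Matrix (Fin 4) (Fin 4) k := !![v 0, 0, 0, 0; v 1, 1, 0, 0; v 2, 0, 1, 0; v 3, 0, 0, 1]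
  let N : Matrix (Fin 4) (Fin 4) k := !![(v 0)⁻¹, 0, 0, 0; -(v 1 / v 0), 1, 0, 0;
    -(v 2 / v 0), 0, 1, 0; -(v 3 / v 0), 0, 0, 1]
  have h : N * M = 1 := by
    ext i j
    fin_cases i <;> fin_cases j <;> simp [M, N, Matrix.mul_apply, Fin.sum_univ_four, v2]
  have e0 : M.mulVec (Pi.single 0 1) = v := by
    ext i
    fin_cases i <;> simp [M]
  have e1 (l : Fin 4) : M l 0 = v l := by fin_cases l <;> simp [M]
  refine Bert.transport h (bert2 (H.transport h)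
    (fun i ↦ by rw [eval_lm, e0]; exact (v1 i (Finset.mem_univ i)).1) fun i z ↦ ?_)
  rw [pderiv_lm, ← le_apply h, map_eq_zero_iff _ (le h).injective] at z
  refine (v1 i (Finset.mem_univ i)).2 ?_
  simpa [e1, coeff_sum, mul_comm] using congrArg (coeff (m i)) z

end Pool.Agent.Lib.MP_d54a3f_ag
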