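import Mathlib

/-! A Bezoutian construction of residual elements. -/

open TensorProduct

namespace Pool.Agent.Lib.MP_d54a3f_ag

theorem bezoutian {B S : Type*} [CommRing B] [CommRing S] [Algebra B S] (P : Ideal S)
    (π : (S ⧸ P) →ₗ[B] B) {x y : S} (hgen : Algebra.adjoin B {x, y} = ⊤) (b₁ b₂ c : B)
    {u v₁ v₂ w₁ w₂ F₀ F₁ F₂ : S} {e : ℕ}
    (hG : x * u - algebraMap B S b₁ * v₁ - algebraMap B S b₂ * v₂ ∈ P)
    (hF : algebraMap B S c * y ^ (e + 1) + x * F₀ + algebraMap B S b₁ * F₁ +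
      algebraMap B S b₂ * F₂ ∈ P)
    (hy : y * u - algebraMap B S b₁ * w₁ - algebraMap B S b₂ * w₂ ∈ P) :
    ∃ G' : S, (∀ p ∈ P, G' * p ∈ Ideal.span {algebraMap B S c * y ^ (e + 1) + x * F₀ +
        algebraMap B S b₁ * F₁ + algebraMap B S b₂ * F₂} ⊔
        Ideal.span {x * u - algebraMap B S b₁ * v₁ - algebraMap B S b₂ * v₂}) ∧
      G' - algebraMap B S (c * π (Ideal.Quotient.mk P u)) * y ^ e ∈
        Ideal.span {x, algebraMap B S b₁, algebraMap B S b₂} := by
  let T := S ⊗[B] (S ⧸ P)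
  let j : S →ₐ[B] T := Algebra.TensorProduct.includeLeft
  let κ : S →ₐ[B] T := Algebra.TensorProduct.includeRight.comp (Ideal.Quotient.mkₐ B P)
  let L : T →ₗ[S] S := AlgebraTensorModule.lift
    (LinearMap.toSpanSingleton S _ ((Algebra.linearMap B S).comp π))
  have hL (s : S) (t : T) : L (j s * t) = s * L t := by
    rw [← smul_eq_mul s, ← map_smul]
    exact congrArg L (Algebra.smul_def s t).symm
  have hLκ (s : S) : L (κ s) = algebraMap B S (π (Ideal.Quotient.mk P s)) := by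
    simp [L, κ, T]
  have hκ (p : S) (hp : p ∈ P) : κ p = 0 := by
    simp [κ, Ideal.Quotient.eq_zero_iff_mem.2 hp]
  have hjκ (b : B) : κ (algebraMap B S b) = j (algebraMap B S b) := by
    rw [AlgHom.commutes, AlgHom.commutes]
  have dec (s : S) : ∃ a : T × T, j s - κ s = (j x - κ x) * a.1 + (j y - κ y) * a.2 := by
    induction (hgen ▸ Algebra.mem_top : s ∈ Algebra.adjoin B {x, y})
      using Algebra.adjoin_induction with
    | mem s hs =>
      rcases hs with rfl | rfl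
      exacts [⟨(1, 0), by simp⟩, ⟨(0, 1), by simp⟩]
    | algebraMap b => exact ⟨0, by simp⟩
    | add s t _ _ hs ht =>
      obtain ⟨a, ha⟩ := hs
      obtain ⟨b, hb⟩ := ht
      exact ⟨a + b, by simp only [map_add, Prod.fst_add, Prod.snd_add]; linear_combination ha + hb⟩
    | mul s t _ _ hs ht =>
      obtain ⟨a, ha⟩ := hs
      obtain ⟨b, hb⟩ := ht
      exact ⟨(a.1 * j t + κ s * b.1, a.2 * j t + κ s * b.2), by
        simp only [map_mul]; linear_combination j t * ha + κ s * hb⟩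
  choose d hd using dec
  obtain ⟨z, hz⟩ : ∃ z, j y ^ (e + 1) - κ y ^ (e + 1) = (j y - κ y) * (j y ^ e + κ y * z) := by
    clear hF
    induction e with
    | zero => exact ⟨0, by simp⟩
    | succ e ih =>
      obtain ⟨z, hz⟩ := ih
      exact ⟨j y ^ e + κ y * z, by linear_combination κ y * hz⟩
  set l₁ := algebraMap B S b₁
  set l₂ := algebraMap B S b₂
  set γ := algebraMap B S c with hγ
  have k₁ : κ l₁ = j l₁ := hjκ b₁
  have k₂ : κ l₂ = j l₂ := hjκ b₂
  have k₃ : κ γ = j γ := hjκ c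
  set G := x * u - l₁ * v₁ - l₂ * v₂ with eG
  set F := γ * y ^ (e + 1) + x * F₀ + l₁ * F₁ + l₂ * F₂ with eF
  set G1 := κ u + j x * (d u).1 - j l₁ * (d v₁).1 - j l₂ * (d v₂).1 with eG1
  set G2 := j x * (d u).2 - j l₁ * (d v₁).2 - j l₂ * (d v₂).2 with eG2
  set F1 := κ F₀ + j x * (d F₀).1 + j l₁ * (d F₁).1 + j l₂ * (d F₂).1 with eF1
  set F2 := j γ * (j y ^ e + κ y * z) + j x * (d F₀).2 + j l₁ * (d F₁).2 + j l₂ * (d F₂).2 with eF2
  have hG' : j G = (j x - κ x) * G1 + (j y - κ y) * G2 := by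
    have := hκ G hG
    simp only [eG, map_sub, map_mul, k₁, k₂] at this ⊢
    linear_combination this + j x * hd u - j l₁ * hd v₁ - j l₂ * hd v₂
  have hF' : j F = (j x - κ x) * F1 + (j y - κ y) * F2 := by
    have := hκ F hF
    simp only [eF, map_add, map_mul, map_pow, k₁, k₂, k₃] at this ⊢
    linear_combination this + j γ * hz + j x * hd F₀ + j l₁ * hd F₁ + j l₂ * hd F₂
  refine ⟨L (G1 * F2 - G2 * F1), fun p hp ↦ ?_, ?_⟩
  · have h1 := hd p
    rw [hκ p hp, sub_zero] at h1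
    have h2 : j p * (G1 * F2 - G2 * F1) = j F * ((d p).2 * G1 - (d p).1 * G2) +
        j G * ((d p).1 * F2 - (d p).2 * F1) := by
      rw [h1, hG', hF']
      ring
    rw [mul_comm, ← hL, h2, map_add, hL, hL]
    exact Submodule.add_mem_sup (Ideal.mul_mem_right _ _ (Ideal.mem_span_singleton_self _))
      (Ideal.mul_mem_right _ _ (Ideal.mem_span_singleton_self _))
  · have h1 := hκ _ hy
    simp only [map_sub, map_mul, k₁, k₂] at h1
    have h2 : G1 * F2 - G2 * F1 = j (γ * y ^ e) * κ u +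
        j x * (κ u * (d F₀).2 + (d u).1 * F2 - (d u).2 * F1) +
        j l₁ * (κ u * (d F₁).2 - (d v₁).1 * F2 + (d v₁).2 * F1 + j γ * z * κ w₁) +
        j l₂ * (κ u * (d F₂).2 - (d v₂).1 * F2 + (d v₂).2 * F1 + j γ * z * κ w₂) := by
      rw [map_mul, map_pow]
      linear_combination F2 * eG1 - F1 * eG2 + κ u * eF2 + j γ * z * h1
    rw [h2, map_add, map_add, map_add, hL, hL, hL, hL, hLκ, map_mul]
    have e (a b c : S) : γ * y ^ e * algebraMap B S (π (Ideal.Quotient.mk P u)) + a + b + c -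
        γ * algebraMap B S (π (Ideal.Quotient.mk P u)) * y ^ e = a + b + c := by ring
    rw [← hγ, e]
    exact Ideal.add_mem _ (Ideal.add_mem _
      (Ideal.mul_mem_right _ _ (Ideal.subset_span (by simp)))
      (Ideal.mul_mem_right _ _ (Ideal.subset_span (by simp))))
      (Ideal.mul_mem_right _ _ (Ideal.subset_span (by simp)))

theorem indep_step {A S κ : Type*} [CommRing A] [CommRing S] (γ : A →+* S) {I : Ideal S} {l : S}
    (hl : ∀ f, l * f ∈ I → f ∈ I) {v : κ → S} {s : Finset κ}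
    (H : ∀ g : κ → A, ∑ i ∈ s, γ (g i) * v i ∈ I ⊔ Ideal.span {l} → ∀ i ∈ s, g i = 0)
    (g : κ → Polynomial A) (hg : ∑ i ∈ s, Polynomial.eval₂RingHom γ l (g i) * v i ∈ I) :
    ∀ i ∈ s, g i = 0 := by
  have key (g : κ → Polynomial A) : ∑ i ∈ s, Polynomial.eval₂RingHom γ l (g i) * v i =
      l * ∑ i ∈ s, Polynomial.eval₂RingHom γ l (g i).divX * v i +
        ∑ i ∈ s, γ ((g i).coeff 0) * v i := by
    rw [Finset.mul_sum, ← Finset.sum_add_distrib]
    refine Finset.sum_congr rfl fun i _ ↦ ?_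
    conv_lhs => rw [← (g i).X_mul_divX_add]
    rw [map_add, map_mul]
    simp [add_mul, mul_assoc]
  have h0 (g : κ → Polynomial A) (hg : ∑ i ∈ s, Polynomial.eval₂RingHom γ l (g i) * v i ∈ I) :
      ∀ i ∈ s, (g i).coeff 0 = 0 := H _ (by
    rw [← sub_eq_iff_eq_add'.2 (key g)]
    exact Ideal.sub_mem _ (Ideal.mem_sup_left hg)
      (Ideal.mem_sup_right (Ideal.mul_mem_right _ _ (Ideal.mem_span_singleton_self _))))
  intro i hi
  ext n
  induction n generalizing g with
  | zero => exact h0 g hg i hi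
  | succ n ih =>
    rw [← Polynomial.coeff_divX]
    refine ih (fun i ↦ (g i).divX) (hl _ ?_)
    have h1 := h0 g hg
    rwa [key, Finset.sum_eq_zero (f := fun i ↦ γ ((g i).coeff 0) * v i)
      fun i hi ↦ by rw [h1 i hi, map_zero, zero_mul], add_zero] at hg

end Pool.Agent.Lib.MP_d54a3f_ag
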