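import Pool.Agent.Lib.MP_d54a3f_ag.Dim

/-! Integral curves on the cone over a plane section. -/

open MvPolynomial Module

namespace Pool.Agent.Lib.MP_d54a3f_ag

variable {k : Type*} [Field k]

/-- the linear form with coefficients `c` -/
noncomputable def lin (c : Fin 4 → k) : S k := ∑ i, C (c i) * X i

theorem lin_hom (c : Fin 4 → k) : (lin c).IsHomogeneous 1 :=
  IsHomogeneous.sum _ _ _ fun _ _ ↦ isHomogeneous_C_mul_X _ _

/-- a plane together with a point outside it -/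
structure Fr (k : Type*) [Field k] where
  c : Fin 4 → k
  o : Fin 4 → k
  h : ∑ i, c i * o i = 1

namespace Fr

variable (φ : Fr k)

/-- the equation of the plane -/
noncomputable def w : S k := lin φ.c

theorem w_hom : φ.w.IsHomogeneous 1 := lin_hom _

theorem map_w {A : Type*} [CommRing A] [Algebra k A] (f g : S k →ₐ[k] A) (t : A)
    (h : ∀ i, f (X i) = g (X i) - algebraMap k A (φ.o i) * t) : f φ.w = g φ.w - t := by
  have h1 : ∑ i, algebraMap k A (φ.c i) * algebraMap k A (φ.o i) = 1 := by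
    rw [← map_one (algebraMap k A), ← φ.h, map_sum]
    simp only [map_mul]
  simp only [w, lin, map_sum, map_mul, algHom_C, h, mul_sub, Finset.sum_sub_distrib, ← mul_assoc,
    ← Finset.sum_mul, h1, one_mul]

/-- projection from the point onto the plane -/
noncomputable def pw : S k →ₐ[k] S k := aeval fun i ↦ X i - C (φ.o i) * φ.w

theorem pw_X (i : Fin 4) : φ.pw (X i) = X i - C (φ.o i) * φ.w := by simp [pw]

theorem pw_w : φ.pw φ.w = 0 := by
  rw [φ.map_w φ.pw (AlgHom.id k _) φ.w φ.pw_X]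
  simp

variable {φ} in
theorem pw_hom {f : S k} {n : ℕ} (hf : f.IsHomogeneous n) : (φ.pw f).IsHomogeneous n := by
  have := hf.aeval (fun i : Fin 4 ↦ X i - C (φ.o i) * φ.w) (n := 1) fun i ↦
    (isHomogeneous_X k i).sub (φ.w_hom.C_mul _)
  rwa [one_mul] at this

theorem exists_pw (f : S k) : ∃ g, f = φ.pw f + φ.w * g := by
  induction f using MvPolynomial.induction_on with
  | C a => exact ⟨0, by simp [pw]⟩
  | add p q hp hq =>
    obtain ⟨a, ha⟩ := hp
    obtain ⟨b, hb⟩ := hq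
    exact ⟨a + b, by rw [map_add]; linear_combination ha + hb⟩
  | mul_X p i hp =>
    obtain ⟨a, ha⟩ := hp
    exact ⟨a * X i + φ.pw p * C (φ.o i), by rw [map_mul, pw_X]; linear_combination X i * ha⟩

theorem pw_mem_iff {I : Ideal (S k)} {f : S k} :
    φ.pw f ∈ I ⊔ Ideal.span {φ.w} ↔ f ∈ I ⊔ Ideal.span {φ.w} := by
  obtain ⟨g, hg⟩ := φ.exists_pw f
  have h := Ideal.mul_mem_right g _ (mem_sup_span_self I φ.w)
  constructor
  · intro h1
    rw [hg]
    exact Ideal.add_mem _ h1 h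
  · intro h1
    have := Ideal.sub_mem _ h1 h
    rwa [show f - φ.w * g = φ.pw f by linear_combination hg] at this

theorem comap_pw (F : S k) :
    (Ideal.span {φ.pw F}).comap φ.pw = Ideal.span {F} ⊔ Ideal.span {φ.w} := by
  ext f
  rw [Ideal.mem_comap, ← φ.pw_mem_iff]
  constructor
  · intro h
    obtain ⟨g, hg⟩ := Ideal.mem_span_singleton'.1 h
    rw [← hg]
    exact Ideal.mul_mem_left _ _ (φ.pw_mem_iff.2
      (Ideal.mem_sup_left (Ideal.mem_span_singleton_self F)))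
  · intro h
    obtain ⟨g, hg⟩ := mem_sup_span.1 (φ.pw_mem_iff.1 h)
    obtain ⟨e, he⟩ := Ideal.mem_span_singleton'.1 hg
    have := congrArg φ.pw he
    rw [map_sub, map_mul, map_mul, pw_w, zero_mul, sub_zero] at this
    exact Ideal.mem_span_singleton'.2 ⟨_, this⟩

end Fr

theorem IsIntACM.sec_ne_top {P : Ideal (S k)} (hP : IsIntACM P) {w : S k}
    (hw : w.IsHomogeneous 1) : P ⊔ Ideal.span {w} ≠ ⊤ := fun e ↦
  mm_prime.ne_top (top_le_iff.1 (e ▸ sup_le (hP.2.hom.le_mm hP.1.ne_top)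
    ((Ideal.span_singleton_le_iff_mem _).2 (hom_mem_mm hw one_ne_zero))))

section
variable {K : Type*} [Field K] [Algebra k K] (φ : Fr k) (cls : S k →ₐ[k] K) (θ : K)

/-- the graph `w = - 1 / θ` over the plane curve -/
noncomputable def chi : S k →ₐ[k] K := aeval fun i ↦ cls (X i) - algebraMap k K (φ.o i) * θ⁻¹

theorem chi_X (i : Fin 4) : chi φ cls θ (X i) = cls (X i) - algebraMap k K (φ.o i) * θ⁻¹ := by
  simp [chi]

variable {cls φ}

theorem chi_w (h0 : cls φ.w = 0) : chi φ cls θ φ.w = -θ⁻¹ := by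
  rw [φ.map_w _ cls _ (chi_X φ cls θ), h0, zero_sub]

theorem chi_pw (h0 : cls φ.w = 0) (f : S k) : chi φ cls θ (φ.pw f) = cls f := by
  have : (chi φ cls θ).comp φ.pw = cls := by
    ext i : 1
    rw [AlgHom.comp_apply, φ.pw_X, map_sub, map_mul, chi_w θ h0, chi_X, algHom_C]
    ring
  exact DFunLike.congr_fun this f

theorem cls_pw (h0 : cls φ.w = 0) (f : S k) : cls (φ.pw f) = cls f := by
  obtain ⟨g, hg⟩ := φ.exists_pw f
  conv_rhs => rw [hg, map_add, map_mul, h0, zero_mul, add_zero]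

variable {θ}

theorem chi_clear {a p : S k} (hθ : θ ≠ 0) (h : cls a = θ * cls p) (g : S k) :
    ∃ (m : ℕ) (s : S k), cls a ^ m * chi φ cls θ g = cls s := by
  induction g using MvPolynomial.induction_on with
  | C c => exact ⟨0, C c, by simp [algHom_C]⟩
  | add f g hf hg =>
    obtain ⟨m, s, hs⟩ := hf
    obtain ⟨n, t, ht⟩ := hg
    refine ⟨m + n, a ^ n * s + a ^ m * t, ?_⟩
    simp only [map_add, map_mul, map_pow, ← hs, ← ht]
    ring
  | mul_X f i hf =>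
    obtain ⟨m, s, hs⟩ := hf
    refine ⟨m + 1, s * (a * X i - C (φ.o i) * p), ?_⟩
    rw [map_mul, chi_X, map_mul, ← hs, map_sub, map_mul, map_mul, algHom_C, pow_succ, h]
    field_simp

theorem rel_all {P : Ideal (S k)} (hP : IsIntACM P)
    (hrel : ∀ p d, p ∈ P → p.IsHomogeneous (d + 1) →
      ∃ r : S k, r.IsHomogeneous d ∧ cls r = θ * cls p) {I : Ideal (S k)}
    (hI : ∀ p r d, p ∈ P → p.IsHomogeneous (d + 1) → r.IsHomogeneous d → cls r = θ * cls p →
      φ.pw p + φ.w * φ.pw r ∈ I) {p : S k} (hp : p ∈ P) :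
    ∃ r : S k, cls r = θ * cls p ∧ φ.pw p + φ.w * φ.pw r ∈ I := by
  have key (n : ℕ) : ∃ r : S k, cls r = θ * cls (homogeneousComponent n p) ∧
      φ.pw (homogeneousComponent n p) + φ.w * φ.pw r ∈ I := by
    rcases n with _ | d
    · have h0 : constantCoeff p = 0 := hP.2.hom.le_mm hP.1.ne_top hp
      rw [homogeneousComponent_zero, ← constantCoeff_eq, h0]
      exact ⟨0, by simp, by simp⟩
    · obtain ⟨r, h1, h2⟩ := hrel _ d (hP.2.hom p hp _) (homogeneousComponent_isHomogeneous _ p)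
      exact ⟨r, h2, hI _ r d (hP.2.hom p hp _) (homogeneousComponent_isHomogeneous _ p) h1 h2⟩
  choose r h1 h2 using key
  refine ⟨∑ n ∈ Finset.range (p.totalDegree + 1), r n, ?_, ?_⟩
  · conv_rhs => rw [← sum_homogeneousComponent p]
    simp only [map_sum, h1, Finset.mul_sum]
  · conv => enter [2, 1]; rw [← sum_homogeneousComponent p]
    simp only [map_sum, Finset.mul_sum, ← Finset.sum_add_distrib]
    exact Ideal.sum_mem _ fun n _ ↦ h2 n

theorem cone {P : Ideal (S k)} (hP : IsIntACM P) (hw : φ.w ∉ P) {F : S k}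
    (hFP : F ∈ P)
    (hker : ∀ s, cls s = 0 ↔ s ∈ Ideal.span {F} ⊔ Ideal.span {φ.w})
    (hF0 : φ.pw F ≠ 0) (hF1 : (Ideal.span {φ.pw F}).IsPrime) (hθ : θ ≠ 0)
    (hrel : ∀ p d, p ∈ P → p.IsHomogeneous (d + 1) →
      ∃ r : S k, r.IsHomogeneous d ∧ cls r = θ * cls p)
    (hpole : ∃ p ∈ P, ∃ r, cls r = θ * cls p ∧ Prim ((P ⊔ Ideal.span {r}) ⊔ Ideal.span {φ.w})) :
    IsIntACM (RingHom.ker (chi φ cls θ)) ∧ φ.w ∉ RingHom.ker (chi φ cls θ) ∧
      RingHom.ker (chi φ cls θ) ⊔ Ideal.span {φ.w} = P ⊔ Ideal.span {φ.w} := by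
  have hX := φ.w_hom
  have h0 : cls φ.w = 0 := (hker _).2 (mem_sup_span_self _ _)
  have hsat := hP.sat hw
  have hkP (s : S k) (hs : cls s = 0) : s ∈ P ⊔ Ideal.span {φ.w} :=
    sup_le_sup_right ((Ideal.span_singleton_le_iff_mem _).2 hFP) _ ((hker s).1 hs)
  have hgen (p r : S k) (h : cls r = θ * cls p) : chi φ cls θ (φ.pw p + φ.w * φ.pw r) = 0 := by
    rw [map_add, map_mul, chi_pw θ h0, chi_pw θ h0, chi_w θ h0, h]
    field_simp
    ring
  set I : Ideal (S k) := Ideal.span {x | ∃ p r d, p ∈ P ∧ p.IsHomogeneous (d + 1) ∧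
    r.IsHomogeneous d ∧ cls r = θ * cls p ∧ x = φ.pw p + φ.w * φ.pw r} with hI
  have hIh : IsHom I := isHom_span (by
    rintro _ ⟨p, r, d, -, h1, h2, -, rfl⟩
    exact ⟨d + 1, (Fr.pw_hom h1).add (add_comm d 1 ▸ hX.mul (Fr.pw_hom h2))⟩)
  have hIk : I ≤ RingHom.ker (chi φ cls θ) := Ideal.span_le.2 (by
    rintro _ ⟨p, r, d, -, -, -, h, rfl⟩
    exact hgen p r h)
  have hall := fun p ↦ rel_all (p := p) hP hrel (I := I) fun p r d h1 h2 h3 h4 ↦
    Ideal.subset_span ⟨p, r, d, h1, h2, h3, h4, rfl⟩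
  obtain ⟨p0, hp0, r0, hr0, hprim⟩ := hpole
  have hw' : chi φ cls θ φ.w ≠ 0 := by rw [chi_w θ h0]; simpa using hθ
  have claim (g : S k) (hg : chi φ cls θ g = 0) : g ∈ P ⊔ Ideal.span {φ.w} := by
    refine hsat.mem (hprim.of_le_radical (sup_le (sup_le ?_ ?_) ?_))
    · exact le_sup_left.trans ((le_col _ g).trans Ideal.le_radical)
    · rw [Ideal.span_singleton_le_iff_mem]
      obtain ⟨g', hg'⟩ := φ.exists_pw g
      obtain ⟨m, s, hs⟩ := chi_clear hθ hr0 g'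
      refine ⟨m + 1, mem_col.2 ?_⟩
      have h1 : cls g = θ⁻¹ * chi φ cls θ g' := by
        rw [hg', map_add, map_mul, chi_pw θ h0, chi_w θ h0] at hg
        linear_combination hg
      have h2 : cls (g * r0 ^ (m + 1) - p0 * s) = 0 := by
        rw [map_sub, map_mul, map_mul, map_pow, ← hs, h1, pow_succ, hr0]
        field_simp
        ring
      have := Ideal.add_mem _ (hkP _ h2) (Ideal.mul_mem_right s _ (Ideal.mem_sup_left hp0))
      rwa [sub_add_cancel] at this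
    · exact le_sup_right.trans ((le_col _ g).trans Ideal.le_radical)
  have step (g : S k) (hg : chi φ cls θ g = 0) : ∃ g', chi φ cls θ g' = 0 ∧ g - φ.w * g' ∈ I := by
    obtain ⟨s, hs⟩ := mem_sup_span.1 (claim g hg)
    obtain ⟨r, -, hr⟩ := hall _ hs
    obtain ⟨g', hg'⟩ := φ.exists_pw g
    rw [map_sub, map_mul, φ.pw_w, zero_mul, sub_zero] at hr
    have e : g - φ.w * (g' - φ.pw r) = φ.pw g + φ.w * φ.pw r := by linear_combination hg'
    refine ⟨g' - φ.pw r, ?_, e ▸ hr⟩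
    have h1 : chi φ cls θ (g - φ.w * (g' - φ.pw r)) = 0 := e ▸ hIk hr
    rw [map_sub, hg, zero_sub, neg_eq_zero, map_mul] at h1
    exact (mul_eq_zero.1 h1).resolve_left hw'
  have hkI : RingHom.ker (chi φ cls θ) = I := by
    refine le_antisymm (fun g hg ↦ IsHom.mem_of_comp fun n ↦ ?_) hIk
    have key (N : ℕ) : ∃ g', chi φ cls θ g' = 0 ∧ g - φ.w ^ N * g' ∈ I := by
      induction N with
      | zero => exact ⟨g, hg, by simp⟩
      | succ N ih =>
        obtain ⟨g1, h1, h2⟩ := ih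
        obtain ⟨g2, h3, h4⟩ := step g1 h1
        refine ⟨g2, h3, ?_⟩
        have := I.add_mem h2 (I.mul_mem_left (φ.w ^ N) h4)
        convert this using 1
        ring
    obtain ⟨g', -, h⟩ := key (n + 1)
    have := hIh _ h n
    rwa [map_sub, comp_mul_lt (by simpa using hX.pow (n + 1)) (Nat.lt_succ_self n),
      sub_zero] at this
  have hprime : (RingHom.ker (chi φ cls θ)).IsPrime := RingHom.ker_isPrime _
  have hsec : RingHom.ker (chi φ cls θ) ⊔ Ideal.span {φ.w} = P ⊔ Ideal.span {φ.w} := by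
    refine le_antisymm (sup_le (fun g hg ↦ claim g hg) le_sup_right) (sup_le ?_ le_sup_right)
    intro p hp
    obtain ⟨r, -, hr⟩ := hall p hp
    rw [← φ.pw_mem_iff]
    exact mem_sup_span.2 ⟨-φ.pw r, by rw [mul_neg, sub_neg_eq_add]; exact hIk hr⟩
  refine ⟨⟨hprime, hkI ▸ hIh, (dim_eq_two_iff _).2 ⟨ch2_of_sat hprime (hkI ▸ hIh) hX hw'
    (hsec ▸ hsat), ?_⟩, ?_⟩, hw', hsec⟩
  · rintro ⟨A, B, C, D, hA, hB, hC, hD, h1, h2, h3, h4⟩
    refine not_chain5 hF1 hA hB hC hD ?_ (lt_of_lt_of_le (lt_of_le_of_ne ?_ fun e ↦ ?_) h1)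
      h2 h3 h4
    · exact bot_lt_iff_ne_bot.2 (by simpa using hF0)
    · rw [Ideal.span_singleton_le_iff_mem, RingHom.mem_ker, chi_pw θ h0, hker]
      exact Ideal.mem_sup_left (Ideal.mem_span_singleton_self F)
    · have h5 : φ.pw p0 + φ.w * φ.pw r0 ∈ Ideal.span {φ.pw F} := e ▸ hgen p0 r0 hr0
      obtain ⟨c, hc⟩ := Ideal.mem_span_singleton'.1 h5
      have h6 : cls p0 = 0 := by
        have := congrArg cls hc
        rw [map_mul, map_add, map_mul, h0, cls_pw h0, cls_pw h0, (hker F).2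
          (Ideal.mem_sup_left (Ideal.mem_span_singleton_self F))] at this
        linear_combination -this
      refine hsat.not_prim (hP.sec_ne_top hX) (hprim.mono (sup_le (sup_le le_sup_left ?_)
        le_sup_right))
      rw [Ideal.span_singleton_le_iff_mem]
      exact hkP _ (by rw [hr0, h6, mul_zero])
  · obtain ⟨b, hb, hb1, -⟩ := exists_reg2 hsat hsat
    refine ⟨φ.w, b, hom_mem_mm hX one_ne_zero, hb, fun g hg ↦ (hprime.mem_or_mem hg).resolve_left hw', ?_⟩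
    rw [hsec]
    exact hb1

end

/-- a pair of lifts with compatible sections forces a maximal pair to have ACM union -/
theorem acm_of_lift {P₁ P₂ Q₁ Q₂ : Ideal (S k)} (h₁ : IsIntACM P₁) (h₂ : IsIntACM P₂)
    (hR : Realizes P₁ P₂) {w : S k} (hw : w.IsHomogeneous 1) (hw₁ : w ∉ P₁) (hw₂ : w ∉ P₂)
    (hprim : Prim ((P₁ ⊔ P₂) ⊔ Ideal.span {w})) (g₁ : IsIntACM Q₁) (g₂ : IsIntACM Q₂)
    (gw₁ : w ∉ Q₁) (gw₂ : w ∉ Q₂) (e₁ : Q₁ ⊔ Ideal.span {w} = P₁ ⊔ Ideal.span {w})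
    (e₂ : Q₂ ⊔ Ideal.span {w} = P₂ ⊔ Ideal.span {w})
    (hlift : ∀ q, q ∈ P₁ ⊔ Ideal.span {w} → q ∈ P₂ ⊔ Ideal.span {w} →
      ∃ s, q + w * s ∈ Q₁ ∧ q + w * s ∈ Q₂) : IsACM (P₁ ⊓ P₂) := by
  by_contra hc
  have hw0 : w ≠ 0 := fun e ↦ hw₁ (e ▸ zero_mem _)
  have reg {P : Ideal (S k)} (h : IsIntACM P) (hw : w ∉ P) (f : S k) (hf : w * f ∈ P) : f ∈ P :=
    (h.1.mem_or_mem hf).resolve_left hw
  have hreg (f : S k) (hf : w * f ∈ Q₁ ⊔ Q₂) : f ∈ Q₁ ⊔ Q₂ := by
    obtain ⟨a, ha, b, hb, e⟩ := Submodule.mem_sup.1 hf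
    obtain ⟨s, hs1, hs2⟩ := hlift a (e₁ ▸ Ideal.mem_sup_left ha) (e₂ ▸ mem_sup_span.2
      ⟨f, by rw [← e, sub_add_cancel_left]; exact Q₂.neg_mem hb⟩)
    have k1 : s ∈ Q₁ := reg g₁ gw₁ s (by simpa using Q₁.sub_mem hs1 ha)
    have k2 : f + s ∈ Q₂ := reg g₂ gw₂ _ (by
      have := Q₂.add_mem hs2 hb
      convert this using 1
      linear_combination -e)
    have := (Q₁ ⊔ Q₂).sub_mem (Ideal.mem_sup_right k2) (Ideal.mem_sup_left k1)
    rwa [add_sub_cancel_right] at this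
  have esum : (P₁ ⊔ P₂) ⊔ Ideal.span {w} = (Q₁ ⊔ Q₂) ⊔ Ideal.span {w} := by
    rw [sup_sup_distrib_right P₁ P₂, sup_sup_distrib_right Q₁ Q₂, e₁, e₂]
  have hQ := g₁.2.hom.sup g₂.2.hom
  have hlt := hilb_lt_of_section (h₁.2.hom.sup h₂.2.hom) hQ hw hw0
    (fun h ↦ hc (acm_union h₁ h₂ hw hw₁ hw₂ h)) hreg esum
  obtain ⟨M, hM⟩ := hprim.deg
  have hint : Inter Q₁ Q₂ (hilb (Q₁ ⊔ Q₂) M) := by
    refine Filter.eventually_atTop.2 ⟨M, fun n hn ↦ ?_⟩
    induction n, hn using Nat.le_induction with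
    | base => rfl
    | succ n hn ih =>
      rw [hilb_succ hQ hw hw0, col_eq hreg, ih, ← esum,
        hilb_eq_zero_iff.2 (hM (n + 1) (by omega)), add_zero]
  have hne : Q₁ ≠ Q₂ := by
    rintro rfl
    refine (h₁.sat hw₁).not_prim (h₁.sec_ne_top hw) (hprim.mono ?_)
    rw [esum, sup_idem, e₁]
  obtain ⟨N, hN, hmax⟩ := hR
  have hle := hmax Q₁ Q₂ _ g₁ g₂ hne
    (hvec_congr (hilb_eq_of_section g₁.2.hom h₁.2.hom hw hw0 (reg g₁ gw₁) (reg h₁ hw₁) e₁))
    (hvec_congr (hilb_eq_of_section g₂.2.hom h₂.2.hom hw hw0 (reg g₂ gw₂) (reg h₂ hw₂) e₂)) hint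
  obtain ⟨n, h1, h2, h3⟩ := (hlt.and (hN.and hint)).exists
  omega

end Pool.Agent.Lib.MP_d54a3f_ag
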