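import Mathlib

open MvPolynomial

namespace Pool.Agent.Lib.MP_d54a3f_ag

/-- the homogeneous coordinate ring of projective 3-space -/
abbrev S (k : Type*) [Field k] := MvPolynomial (Fin 4) k

variable {k : Type*} [Field k]

/-- homogeneous ideals -/
def IsHom (I : Ideal (S k)) : Prop := ∀ f ∈ I, ∀ n, homogeneousComponent n f ∈ I

/-- the Hilbert function of `S / I` -/
noncomputable def hilb (I : Ideal (S k)) (n : ℕ) : ℕ :=
  Module.finrank k ((homogeneousSubmodule (Fin 4) k n).map (Ideal.Quotient.mkₐ k I).toLinearMap)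

/-- the `h`-vector: second difference of the Hilbert function -/
noncomputable def hvec (I : Ideal (S k)) (n : ℕ) : ℤ :=
  (hilb I n : ℤ) - 2 * (if 1 ≤ n then (hilb I (n - 1) : ℤ) else 0) +
    (if 2 ≤ n then (hilb I (n - 2) : ℤ) else 0)

/-- `I` is the ideal of an ACM curve: `S / I` is graded of Krull dimension two and the irrelevant
ideal contains a regular sequence of length two on it -/
def IsACM (I : Ideal (S k)) : Prop :=
  IsHom I ∧ ringKrullDim (S k ⧸ I) = 2 ∧ ∃ a b : S k, constantCoeff a = 0 ∧ constantCoeff b = 0 ∧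
    (∀ f, a * f ∈ I → f ∈ I) ∧
    ∀ f, b * f ∈ I ⊔ Ideal.span {a} → f ∈ I ⊔ Ideal.span {a}

/-- the ideal of an integral ACM curve -/
def IsIntACM (P : Ideal (S k)) : Prop := P.IsPrime ∧ IsACM P

/-- the scheme-theoretic intersection has length `N` -/
def Inter (I J : Ideal (S k)) (N : ℕ) : Prop := ∀ᶠ n in Filter.atTop, hilb (I ⊔ J) n = N

/-- the pair realizes the maximal intersection number for its two `h`-vectors -/
def Realizes (P₁ P₂ : Ideal (S k)) : Prop :=
  ∃ N, Inter P₁ P₂ N ∧ ∀ (Q₁ Q₂ : Ideal (S k)) (N' : ℕ), IsIntACM Q₁ → IsIntACM Q₂ → Q₁ ≠ Q₂ →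
    hvec Q₁ = hvec P₁ → hvec Q₂ = hvec P₂ → Inter Q₁ Q₂ N' → N' ≤ N

end Pool.Agent.Lib.MP_d54a3f_ag
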