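import Pool.Agent.Lib.MP_d54a3f_ag.Basic

/-! Chains of primes, hyperplane sections of ACM curves. -/

open MvPolynomial Module

namespace Pool.Agent.Lib.MP_d54a3f_ag

theorem le_dim_iff {R : Type*} [CommRing R] (I : Ideal R) (n : ℕ) :
    (n : WithBot ℕ∞) ≤ ringKrullDim (R ⧸ I) ↔
      ∃ Q : Fin (n + 1) → Ideal R, StrictMono Q ∧ (∀ i, (Q i).IsPrime) ∧ I ≤ Q 0 := by
  rw [ringKrullDim_quotient, Order.le_krullDim_iff]
  constructor
  · rintro ⟨l, rfl⟩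
    exact ⟨fun i ↦ (l i).1.asIdeal, fun i j h ↦ l.strictMono h, fun i ↦ (l i).1.isPrime, (l 0).2⟩
  · rintro ⟨Q, h1, h2, h3⟩
    exact ⟨LTSeries.mk n (fun i ↦ ⟨⟨Q i, h2 i⟩, h3.trans (h1.monotone (Fin.zero_le i))⟩)
      fun i j h ↦ h1 h, rfl⟩

/-- a chain of three primes above `I` -/
def Ch2 {R : Type*} [CommRing R] (I : Ideal R) : Prop :=
  ∃ A B C : Ideal R, A.IsPrime ∧ B.IsPrime ∧ C.IsPrime ∧ I ≤ A ∧ A < B ∧ B < C

/-- a chain of four primes above `I` -/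
def Ch3 {R : Type*} [CommRing R] (I : Ideal R) : Prop :=
  ∃ A B C D : Ideal R, A.IsPrime ∧ B.IsPrime ∧ C.IsPrime ∧ D.IsPrime ∧ I ≤ A ∧ A < B ∧ B < C ∧
    C < D

theorem dim_eq_two_iff {R : Type*} [CommRing R] (I : Ideal R) :
    ringKrullDim (R ⧸ I) = 2 ↔ Ch2 I ∧ ¬ Ch3 I := by
  have h2 : Ch2 I ↔ ((2 : ℕ) : WithBot ℕ∞) ≤ ringKrullDim (R ⧸ I) := by
    rw [le_dim_iff]
    constructor
    · rintro ⟨A, B, C, hA, hB, hC, h0, h1, h2⟩
      refine ⟨![A, B, C], Fin.strictMono_iff_lt_succ.2 fun i ↦ ?_, fun i ↦ ?_, h0⟩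
      · fin_cases i
        exacts [h1, h2]
      · fin_cases i
        exacts [hA, hB, hC]
    · rintro ⟨Q, h1, h2, h3⟩
      exact ⟨Q 0, Q 1, Q 2, h2 _, h2 _, h2 _, h3, h1 (by decide), h1 (by decide)⟩
  have h3 : Ch3 I ↔ ((3 : ℕ) : WithBot ℕ∞) ≤ ringKrullDim (R ⧸ I) := by
    rw [le_dim_iff]
    constructor
    · rintro ⟨A, B, C, D, hA, hB, hC, hD, h0, h1, h2, h3⟩
      refine ⟨![A, B, C, D], Fin.strictMono_iff_lt_succ.2 fun i ↦ ?_, fun i ↦ ?_, h0⟩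
      · fin_cases i
        exacts [h1, h2, h3]
      · fin_cases i
        exacts [hA, hB, hC, hD]
    · rintro ⟨Q, h1, h2, h3⟩
      exact ⟨Q 0, Q 1, Q 2, Q 3, h2 _, h2 _, h2 _, h2 _, h3, h1 (by decide), h1 (by decide),
        h1 (by decide)⟩
  rw [h2, h3]
  generalize ringKrullDim (R ⧸ I) = x
  constructor
  · rintro rfl
    exact ⟨le_rfl, by decide⟩
  · rintro ⟨h1, h2⟩
    induction x with
    | bot => exact absurd h1 (by decide)
    | coe x =>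
      induction x with
      | top => exact absurd le_top h2
      | coe n =>
        have e (a b : ℕ) : ((a : ℕ) : WithBot ℕ∞) ≤ ((b : ℕ∞) : WithBot ℕ∞) ↔ a ≤ b := by
          rw [← WithBot.coe_natCast, WithBot.coe_le_coe, Nat.cast_le]
        rw [e] at h1 h2
        obtain rfl : n = 2 := by omega
        rfl

variable {k : Type*} [Field k]

attribute [local instance] MvPolynomial.gradedAlgebra

theorem not_chain5 {A B C D E : Ideal (S k)} (hA : A.IsPrime) (hB : B.IsPrime) (hC : C.IsPrime)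
    (hD : D.IsPrime) (hE : E.IsPrime) (h0 : ⊥ < A) (h1 : A < B) (h2 : B < C) (h3 : C < D)
    (h4 : D < E) : False := by
  have h : ((5 : ℕ) : WithBot ℕ∞) ≤ ringKrullDim (S k ⧸ (⊥ : Ideal (S k))) := by
    rw [le_dim_iff]
    refine ⟨![⊥, A, B, C, D, E], Fin.strictMono_iff_lt_succ.2 fun i ↦ ?_, fun i ↦ ?_, le_rfl⟩
    · fin_cases i
      exacts [h0, h1, h2, h3, h4]
    · fin_cases i
      exacts [Ideal.isPrime_bot, hA, hB, hC, hD, hE]
  have h' := h.trans (ringKrullDim_quotient_le _)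
  rw [MvPolynomial.ringKrullDim_of_isNoetherianRing, ringKrullDim_eq_zero_of_field] at h'
  simp only [Nat.card_eq_fintype_card, Fintype.card_fin, zero_add] at h'
  exact absurd h' (by decide)

/-- the irrelevant ideal -/
noncomputable def mm (k : Type*) [Field k] : Ideal (S k) :=
  RingHom.ker (constantCoeff : S k →+* k)

theorem mem_mm {f : S k} : f ∈ mm k ↔ constantCoeff f = 0 := Iff.rfl

theorem mm_prime : (mm k).IsPrime := RingHom.ker_isPrime _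

theorem X_mem_mm (i : Fin 4) : (X i : S k) ∈ mm k := by simp [mem_mm]

theorem hom_mem_mm {f : S k} {n : ℕ} (hf : f.IsHomogeneous n) (hn : n ≠ 0) : f ∈ mm k :=
  hf.coeff_eq_zero (by simpa using hn.symm)

theorem IsHom.le_mm {I : Ideal (S k)} (hI : IsHom I) (h : I ≠ ⊤) : I ≤ mm k := by
  intro f hf
  by_contra h0
  have := hI f hf 0
  rw [homogeneousComponent_zero] at this
  exact h (I.eq_top_of_isUnit_mem this ((IsUnit.mk0 _ h0).map C))

theorem mm_le {Q : Ideal (S k)} (h : ∀ i, X i ∈ Q) : mm k ≤ Q := by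
  intro f hf
  have : f ∈ Ideal.span (X '' Set.univ : Set (S k)) := by
    rw [mem_ideal_span_X_image]
    intro m hm
    by_contra hc
    push Not at hc
    have : m = 0 := Finsupp.ext fun i ↦ hc i trivial
    rw [this] at hm
    exact mem_support_iff.1 hm hf
  exact Ideal.span_le.2 (by rintro _ ⟨i, -, rfl⟩; exact h i) this

theorem mul_mem_of_mm {I : Ideal (S k)} {u a : S k} (h : ∀ i, X i * u ∈ I) (ha : a ∈ mm k) :
    a * u ∈ I := by
  have := mm_le (Q := col I u) (fun i ↦ mem_col.2 (mul_comm u _ ▸ h i)) ha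
  exact mul_comm u a ▸ mem_col.1 this

/-- below a prime containing a homogeneous ideal there is a homogeneous prime -/
theorem exists_core {I Q : Ideal (S k)} (hI : IsHom I) (hQ : Q.IsPrime) (h : I ≤ Q) :
    ∃ Q' : Ideal (S k), Q'.IsPrime ∧ I ≤ Q' ∧ Q' ≤ Q ∧ Q' ≤ mm k := by
  have h1 := hQ.homogeneousCore (𝒜 := homogeneousSubmodule (Fin 4) k)
  refine ⟨_, h1, ?_, Ideal.toIdeal_homogeneousCore_le _ Q,
    (isHom_iff.2 (HomogeneousIdeal.isHomogeneous _)).le_mm h1.ne_top⟩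
  rw [← (isHom_iff.1 hI).toIdeal_homogeneousCore_eq_self]
  exact Ideal.homogeneousCore_mono _ h

theorem exists_prime_of_not_prim {I : Ideal (S k)} (hI : IsHom I) (h : ¬ Prim I) :
    ∃ Q : Ideal (S k), Q.IsPrime ∧ I ≤ Q ∧ Q < mm k := by
  simp only [Prim, not_forall, Ideal.radical_eq_sInf, Submodule.mem_sInf] at h
  obtain ⟨i, Q, ⟨h1, h2⟩, h3⟩ := h
  obtain ⟨Q', h4, h5, h6, h7⟩ := exists_core hI h2 h1
  exact ⟨Q', h4, h5, lt_of_le_of_ne h7 fun e ↦ h3 (h6 (e ▸ X_mem_mm i))⟩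

/-- a surface section and a further form avoiding its points have no common zero -/
theorem prim_of_avoid {P : Ideal (S k)} (hP : P.IsPrime) (hPh : IsHom P) (h3 : ¬ Ch3 P)
    {g w : S k} {d e : ℕ} (hg : g.IsHomogeneous d) (hw : w.IsHomogeneous e) (hgP : g ∉ P)
    (hav : ∀ Q ∈ (P ⊔ Ideal.span {g}).minimalPrimes, (∃ i, X i ∉ Q) → w ∉ Q) :
    Prim ((P ⊔ Ideal.span {g}) ⊔ Ideal.span {w}) := by
  by_contra h
  obtain ⟨Q, hQ, h1, h2⟩ := exists_prime_of_not_prim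
    ((hPh.sup (isHom_span1 hg)).sup (isHom_span1 hw)) h
  obtain ⟨Q0, h4, h5⟩ := Ideal.exists_minimalPrimes_le (le_sup_left.trans h1)
  have h6 : w ∉ Q0 := hav Q0 h4 (by
    by_contra hc
    push Not at hc
    exact h2.not_ge ((mm_le hc).trans h5))
  exact h3 ⟨P, Q0, Q, mm k, hP, h4.1.1, hQ, mm_prime, le_rfl,
    lt_of_le_of_ne (le_sup_left.trans h4.1.2) fun e ↦ hgP (e ▸ h4.1.2 (mem_sup_span_self _ _)),
    lt_of_le_of_ne h5 fun e ↦ h6 (e ▸ h1 (mem_sup_span_self _ _)), h2⟩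

theorem IsACM.hom {I : Ideal (S k)} (h : IsACM I) : IsHom I := h.1

theorem IsACM.ch2 {I : Ideal (S k)} (h : IsACM I) : Ch2 I := ((dim_eq_two_iff I).1 h.2.1).1

theorem IsACM.ch3 {I : Ideal (S k)} (h : IsACM I) : ¬ Ch3 I := ((dim_eq_two_iff I).1 h.2.1).2

/-- hyperplane sections of an integral ACM curve are saturated -/
theorem IsIntACM.sat {P : Ideal (S k)} (h : IsIntACM P) {w : S k} (hw : w ∉ P) :
    Sat (P ⊔ Ideal.span {w}) := by
  obtain ⟨hP, -, -, a, b, ha, hb, h1, h2⟩ := h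
  intro u hu
  obtain ⟨v1, hv1⟩ := mem_sup_span.1 (mul_mem_of_mm hu ha)
  obtain ⟨v2, hv2⟩ := mem_sup_span.1 (mul_mem_of_mm hu hb)
  have h3 : w * (b * v1 - a * v2) ∈ P := by
    have := P.sub_mem (P.mul_mem_left a hv2) (P.mul_mem_left b hv1)
    convert this using 1
    ring
  obtain ⟨v, hv⟩ := mem_sup_span.1 (h2 v1 (mem_sup_span.2 ⟨v2, (hP.mem_or_mem h3).resolve_left hw⟩))
  refine mem_sup_span.2 ⟨v, h1 _ ?_⟩
  have := P.add_mem hv1 (P.mul_mem_left w hv)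
  convert this using 1
  ring

theorem Sat.not_prim {I : Ideal (S k)} (h : Sat I) (hI : I ≠ ⊤) : ¬ Prim I := fun hp ↦
  hI ((Ideal.eq_top_iff_one I).2 (h.mem (hp.mono (le_col I 1))))

/-- associated primes of a saturated ideal -/
theorem Sat.exists_primes {I : Ideal (S k)} (h : Sat I) : ∃ 𝒬 : Set (Ideal (S k)), 𝒬.Finite ∧
    (∀ Q ∈ 𝒬, Q.IsPrime ∧ I ≤ Q ∧ ∃ i, X i ∉ Q) ∧
    ∀ b, (∀ Q ∈ 𝒬, b ∉ Q) → ∀ f, b * f ∈ I → f ∈ I := by
  refine ⟨associatedPrimes (S k) (S k ⧸ I), associatedPrimes.finite _ _, fun Q hQ ↦ ?_,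
    fun b hb f hf ↦ ?_⟩
  · obtain ⟨hQ1, x, hx⟩ := (isAssociatedPrime_iff).1 hQ
    obtain ⟨u, rfl⟩ := Ideal.Quotient.mk_surjective x
    have key (a : S k) : a ∈ Q ↔ a * u ∈ I := by
      rw [hx, Submodule.mem_colon_singleton, Submodule.mem_bot, ← Ideal.Quotient.eq_zero_iff_mem]
      rfl
    refine ⟨hQ1, fun a ha ↦ (key a).2 (I.mul_mem_right u ha), ?_⟩
    by_contra hc
    push Not at hc
    have := h u fun i ↦ (key _).1 (hc i)
    exact hQ1.ne_top ((Ideal.eq_top_iff_one Q).2 ((key 1).2 (by rwa [one_mul])))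
  · by_contra hc
    have h1 : b ∈ ⋃ p ∈ associatedPrimes (S k) (S k ⧸ I), (p : Set (S k)) := by
      rw [biUnion_associatedPrimes_eq_zero_divisors]
      exact ⟨Ideal.Quotient.mk I f, fun e ↦ hc (Ideal.Quotient.eq_zero_iff_mem.1 e),
        Ideal.Quotient.eq_zero_iff_mem.2 hf⟩
    obtain ⟨Q, hQ, hbQ⟩ := Set.mem_iUnion₂.1 h1
    exact hb Q hQ hbQ

theorem exists_reg2 {I J : Ideal (S k)} (hI : Sat I) (hJ : Sat J) : ∃ b ∈ mm k,
    (∀ f, b * f ∈ I → f ∈ I) ∧ ∀ f, b * f ∈ J → f ∈ J := by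
  obtain ⟨A, hA, hA1, hA2⟩ := hI.exists_primes
  obtain ⟨B, hB, hB1, hB2⟩ := hJ.exists_primes
  have h : ¬ ((mm k : Set (S k)) ⊆ ⋃ Q ∈ A ∪ B, (id Q : Ideal (S k))) := by
    rw [Ideal.subset_union_prime_finite (f := id) (hA.union hB) ⊥ ⊥ fun Q hQ _ _ ↦
      hQ.elim (fun h ↦ (hA1 Q h).1) fun h ↦ (hB1 Q h).1]
    rintro ⟨Q, hQ, hle⟩
    obtain ⟨i, hi⟩ := hQ.elim (fun h ↦ (hA1 Q h).2.2) fun h ↦ (hB1 Q h).2.2
    exact hi (hle (X_mem_mm i))
  obtain ⟨b, hb, hb'⟩ := Set.not_subset.1 h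
  simp only [Set.mem_iUnion, not_exists] at hb'
  exact ⟨b, hb, hA2 b fun Q hQ ↦ hb' Q (Or.inl hQ), hB2 b fun Q hQ ↦ hb' Q (Or.inr hQ)⟩

/-- a homogeneous prime with a saturated proper hyperplane section carries a chain of length two -/
theorem ch2_of_sat {P : Ideal (S k)} (hP : P.IsPrime) (hPh : IsHom P) {w : S k}
    (hw : w.IsHomogeneous 1) (hwP : w ∉ P) (h : Sat (P ⊔ Ideal.span {w})) : Ch2 P := by
  have hle : P ⊔ Ideal.span {w} ≤ mm k := sup_le (hPh.le_mm hP.ne_top)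
    ((Ideal.span_singleton_le_iff_mem _).2 (hom_mem_mm hw one_ne_zero))
  obtain ⟨Q, hQ, h1, h2⟩ := exists_prime_of_not_prim (hPh.sup (isHom_span1 hw))
    (h.not_prim fun e ↦ mm_prime.ne_top (top_le_iff.1 (e ▸ hle)))
  exact ⟨P, Q, mm k, hP, hQ, mm_prime, le_rfl,
    lt_of_le_of_ne (le_sup_left.trans h1) fun e ↦ hwP (e ▸ h1 (mem_sup_span_self _ _)), h2⟩

theorem not_le_of_ne {P Q : Ideal (S k)} (hP : IsIntACM P) (hQ : IsIntACM Q) (h : P ≠ Q) :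
    ∃ (g : S k) (d : ℕ), g.IsHomogeneous d ∧ g ∈ Q ∧ g ∉ P := by
  by_contra hc
  push Not at hc
  have hle : Q ≤ P := fun f hf ↦ IsHom.mem_of_comp fun n ↦
    hc _ n (homogeneousComponent_isHomogeneous n f) (hQ.2.hom f hf n)
  obtain ⟨A, B, C, hA, hB, hC, h0, h1, h2⟩ := hP.2.ch2
  exact hQ.2.ch3 ⟨Q, A, B, C, hQ.1, hA, hB, hC, le_rfl,
    (lt_of_le_of_ne hle h.symm).trans_le h0, h1, h2⟩

/-- if the sum of the ideals has a regular hyperplane section then the union is ACM -/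
theorem acm_union {P Q : Ideal (S k)} (hP : IsIntACM P) (hQ : IsIntACM Q) {w : S k}
    (hw : w.IsHomogeneous 1) (hwP : w ∉ P) (hwQ : w ∉ Q)
    (h : ∀ f, w * f ∈ P ⊔ Q → f ∈ P ⊔ Q) : IsACM (P ⊓ Q) := by
  obtain ⟨b, hb, hb1, hb2⟩ := exists_reg2 (hP.sat hwP) (hQ.sat hwQ)
  refine ⟨hP.2.hom.inf hQ.2.hom, (dim_eq_two_iff _).2 ⟨?_, ?_⟩, w, b, hom_mem_mm hw one_ne_zero,
    hb, fun f hf ↦ ⟨(hP.1.mem_or_mem hf.1).resolve_left hwP,
      (hQ.1.mem_or_mem hf.2).resolve_left hwQ⟩, fun f hf ↦ ?_⟩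
  · obtain ⟨A, B, C, hA, hB, hC, h0, h1, h2⟩ := hP.2.ch2
    exact ⟨A, B, C, hA, hB, hC, inf_le_left.trans h0, h1, h2⟩
  · rintro ⟨A, B, C, D, hA, hB, hC, hD, h0, h1⟩
    rcases hA.inf_le.1 h0 with h0 | h0
    · exact hP.2.ch3 ⟨A, B, C, D, hA, hB, hC, hD, h0, h1⟩
    · exact hQ.2.ch3 ⟨A, B, C, D, hA, hB, hC, hD, h0, h1⟩
  · have l1 : P ⊓ Q ⊔ Ideal.span {w} ≤ P ⊔ Ideal.span {w} := sup_le_sup_right inf_le_left _
    have l2 : P ⊓ Q ⊔ Ideal.span {w} ≤ Q ⊔ Ideal.span {w} := sup_le_sup_right inf_le_right _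
    obtain ⟨g1, h1⟩ := mem_sup_span.1 (hb1 f (l1 hf))
    obtain ⟨g2, h2⟩ := mem_sup_span.1 (hb2 f (l2 hf))
    have h3 : w * (g2 - g1) ∈ P ⊔ Q := by
      have := (P ⊔ Q).sub_mem (Ideal.mem_sup_left h1) (Ideal.mem_sup_right h2)
      convert this using 1
      ring
    obtain ⟨p, hp, q, hq, e⟩ := Submodule.mem_sup.1 (h _ h3)
    refine mem_sup_span.2 ⟨g1 + p, Ideal.mem_inf.2 ⟨?_, ?_⟩⟩
    · have := P.sub_mem h1 (P.mul_mem_left w hp)
      convert this using 1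
      ring
    · have := Q.add_mem h2 (Q.mul_mem_left w hq)
      convert this using 1
      linear_combination (-w) * e

end Pool.Agent.Lib.MP_d54a3f_ag
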