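import Pool.Agent.Lib.MP_d54a3f_ag.Cone

/-! Lifting the intersection of two plane sections to the cone. -/

open MvPolynomial Module

namespace Pool.Agent.Lib.MP_d54a3f_ag

universe u

variable {k : Type u} [Field k]

theorem exists_cls {R : Ideal (S k)} (hR : R.IsPrime) :
    ∃ (K : Type u) (_ : Field K) (_ : Algebra k K) (cls : S k →ₐ[k] K), ∀ s, cls s = 0 ↔ s ∈ R :=
  ⟨FractionRing (S k ⧸ R), inferInstance, inferInstance,
    (IsScalarTower.toAlgHom k (S k ⧸ R) _).comp (Ideal.Quotient.mkₐ k R), fun s ↦ by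
      rw [AlgHom.comp_apply, IsScalarTower.toAlgHom_apply,
        map_eq_zero_iff _ (IsFractionRing.injective _ _), Ideal.Quotient.mkₐ_eq_mk,
        Ideal.Quotient.eq_zero_iff_mem]⟩

/-- the data attached to one curve, after the choice of a general plane -/
structure Good (φ : Fr k) (P : Ideal (S k)) (F G G' : S k) (J : Ideal (S k)) : Prop where
  acm : IsIntACM P
  hw : φ.w ∉ P
  hF : F ∈ P
  hFh : ∃ f, F.IsHomogeneous f
  ne : φ.pw F ≠ 0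
  pr : (Ideal.span {φ.pw F}).IsPrime
  deg : ∃ d, G.IsHomogeneous (d + 1) ∧ G'.IsHomogeneous d
  hG : G ∉ Ideal.span {F} ⊔ Ideal.span {φ.w}
  hG' : G' ∉ Ideal.span {F} ⊔ Ideal.span {φ.w}
  rel : ∀ p ∈ P, ∃ r ∈ J, G' * p - G * r ∈ Ideal.span {F}
  pole : ∃ p ∈ P, ∃ r, G' * p - G * r ∈ Ideal.span {F} ∧
    Prim ((P ⊔ Ideal.span {r}) ⊔ Ideal.span {φ.w})

theorem rel_hom {F G G' p r : S k} {f d e : ℕ} (hF : F.IsHomogeneous f)
    (hG : G.IsHomogeneous (d + 1)) (hG' : G'.IsHomogeneous d) (hp : p.IsHomogeneous (e + 1))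
    (h : G' * p - G * r ∈ Ideal.span {F}) :
    G' * p - G * homogeneousComponent e r ∈ Ideal.span {F} := by
  have := isHom_span1 hF _ h (d + 1 + e)
  rwa [map_sub, comp_mul hG, comp_self (by convert hG'.mul hp using 1; omega)] at this

namespace Good

variable {φ : Fr k} {P J : Ideal (S k)} {F G G' : S k} (h : Good φ P F G G' J)
include h

theorem prime : (Ideal.span {F} ⊔ Ideal.span {φ.w}).IsPrime :=
  φ.comap_pw F ▸ Ideal.comap_isPrime _ _ (H := h.pr)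

variable {K : Type*} [Field K] [Algebra k K] {cls : S k →ₐ[k] K}
  (hker : ∀ s, cls s = 0 ↔ s ∈ Ideal.span {F} ⊔ Ideal.span {φ.w})
include hker

theorem theta_ne : cls G' / cls G ≠ 0 :=
  div_ne_zero (fun e ↦ h.hG' ((hker _).1 e)) fun e ↦ h.hG ((hker _).1 e)

theorem conv {p r : S k} (e : G' * p - G * r ∈ Ideal.span {F}) :
    cls r = cls G' / cls G * cls p := by
  have h1 : cls G ≠ 0 := fun e ↦ h.hG ((hker _).1 e)
  have h2 := (hker _).2 (Ideal.mem_sup_left e)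
  rw [map_sub, map_mul, map_mul] at h2
  field_simp
  linear_combination -h2

theorem rel' {q : S k} (hq : q ∈ P ⊔ Ideal.span {φ.w}) :
    ∃ r ∈ J, cls r = cls G' / cls G * cls q := by
  obtain ⟨s, hs⟩ := mem_sup_span.1 hq
  obtain ⟨r, h1, h2⟩ := h.rel _ hs
  refine ⟨r, h1, ?_⟩
  rw [h.conv hker h2, map_sub, map_mul, (hker _).2 (mem_sup_span_self _ _), zero_mul, sub_zero]

theorem cone' : IsIntACM (RingHom.ker (chi φ cls (cls G' / cls G))) ∧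
    φ.w ∉ RingHom.ker (chi φ cls (cls G' / cls G)) ∧
    RingHom.ker (chi φ cls (cls G' / cls G)) ⊔ Ideal.span {φ.w} = P ⊔ Ideal.span {φ.w} := by
  obtain ⟨f, hf⟩ := h.hFh
  obtain ⟨d, hd, hd'⟩ := h.deg
  obtain ⟨p0, hp0, r0, hr0, hprim⟩ := h.pole
  refine cone h.acm h.hw h.hF hker h.ne h.pr (h.theta_ne hker) (fun p e hp hpe ↦ ?_)
    ⟨p0, hp0, r0, h.conv hker hr0, hprim⟩
  obtain ⟨r, -, hr⟩ := h.rel p hp
  exact ⟨_, homogeneousComponent_isHomogeneous e r, h.conv hker (rel_hom hf hd hd' hpe hr)⟩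

end Good

theorem acm_distinct {φ : Fr k} {P₁ P₂ : Ideal (S k)} {F₁ G₁ G₁' F₂ G₂ G₂' : S k}
    (h₁ : Good φ P₁ F₁ G₁ G₁' (Ideal.span {F₂})) (h₂ : Good φ P₂ F₂ G₂ G₂' (Ideal.span {F₁}))
    (hR : Realizes P₁ P₂) (hprim : Prim ((P₁ ⊔ P₂) ⊔ Ideal.span {φ.w})) : IsACM (P₁ ⊓ P₂) := by
  obtain ⟨K₁, _, _, c₁, k₁⟩ := exists_cls h₁.prime
  obtain ⟨K₂, _, _, c₂, k₂⟩ := exists_cls h₂.prime
  obtain ⟨a₁, b₁, e₁⟩ := h₁.cone' k₁
  obtain ⟨a₂, b₂, e₂⟩ := h₂.cone' k₂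
  refine acm_of_lift h₁.acm h₂.acm hR φ.w_hom h₁.hw h₂.hw hprim a₁ a₂ b₁ b₂ e₁ e₂
    fun q q₁ q₂ ↦ ?_
  obtain ⟨r₁, m₁, n₁⟩ := h₁.rel' k₁ q₁
  obtain ⟨r₂, m₂, n₂⟩ := h₂.rel' k₂ q₂
  obtain ⟨g, hg⟩ := φ.exists_pw q
  have z₁ := (k₁ _).2 (mem_sup_span_self _ _)
  have z₂ := (k₂ _).2 (mem_sup_span_self _ _)
  have t₁ := h₁.theta_ne k₁
  have t₂ := h₂.theta_ne k₂
  have e : q + φ.w * (φ.pw (r₁ + r₂) - g) = φ.pw q + φ.w * φ.pw (r₁ + r₂) := by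
    linear_combination hg
  refine ⟨φ.pw (r₁ + r₂) - g, ?_, ?_⟩
  · rw [e, RingHom.mem_ker, map_add, map_mul, chi_pw _ z₁, chi_pw _ z₁, chi_w _ z₁, map_add, n₁,
      (k₁ r₂).2 (Ideal.mem_sup_left m₂), add_zero, neg_mul, inv_mul_cancel_left₀ t₁,
      add_neg_cancel]
  · rw [e, RingHom.mem_ker, map_add, map_mul, chi_pw _ z₂, chi_pw _ z₂, chi_w _ z₂, map_add, n₂,
      (k₂ r₁).2 (Ideal.mem_sup_left m₁), zero_add, neg_mul, inv_mul_cancel_left₀ t₂,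
      add_neg_cancel]

theorem acm_same {φ : Fr k} {P₁ P₂ : Ideal (S k)} {F G₁ G₁' G₂ G₂' : S k}
    (h₁ : Good φ P₁ F G₁ G₁' ⊤) (h₂ : Good φ P₂ F G₂ G₂' ⊤)
    (hR : Realizes P₁ P₂) (hprim : Prim ((P₁ ⊔ P₂) ⊔ Ideal.span {φ.w})) : IsACM (P₁ ⊓ P₂) := by
  obtain ⟨K, _, _, c, hk⟩ := exists_cls h₁.prime
  obtain ⟨a₁, b₁, e₁⟩ := h₁.cone' hk
  obtain ⟨a₂, b₂, e₂⟩ := h₂.cone' hk
  refine acm_of_lift h₁.acm h₂.acm hR φ.w_hom h₁.hw h₂.hw hprim a₁ a₂ b₁ b₂ e₁ e₂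
    fun q q₁ q₂ ↦ ?_
  obtain ⟨r₁, -, n₁⟩ := h₁.rel' hk q₁
  obtain ⟨r₂, -, n₂⟩ := h₂.rel' hk q₂
  have hr : r₂ ∈ P₁ ⊔ Ideal.span {φ.w} := by
    refine (h₁.acm.sat h₁.hw).mem (hprim.mono (sup_le (sup_le ?_ fun a ha ↦ ?_) ?_))
    · exact le_sup_left.trans (le_col _ _)
    · obtain ⟨r, -, hr⟩ := h₂.rel' hk (Ideal.mem_sup_left ha)
      have h0 : c (r₂ * a - r * q) = 0 := by
        rw [map_sub, map_mul, map_mul, hr, n₂]
        ring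
      have := Ideal.add_mem _ (sup_le_sup_right ((Ideal.span_singleton_le_iff_mem _).2 h₁.hF) _
        ((hk _).1 h0)) (Ideal.mul_mem_left _ r q₁)
      rw [sub_add_cancel] at this
      exact mem_col.2 this
    · exact le_sup_right.trans (le_col _ _)
  obtain ⟨r₃, -, n₃⟩ := h₁.rel' hk hr
  obtain ⟨g, hg⟩ := φ.exists_pw q
  have z := (hk _).2 (mem_sup_span_self _ _)
  have t₁ := h₁.theta_ne hk
  have t₂ := h₂.theta_ne hk
  have e : q + φ.w * (φ.pw (r₁ + r₂) + φ.w * φ.pw r₃ - g) =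
      φ.pw q + φ.w * (φ.pw (r₁ + r₂) + φ.w * φ.pw r₃) := by
    linear_combination hg
  generalize c G₁' / c G₁ = θ₁ at *
  generalize c G₂' / c G₂ = θ₂ at *
  refine ⟨φ.pw (r₁ + r₂) + φ.w * φ.pw r₃ - g, ?_, ?_⟩
  all_goals
    rw [e, RingHom.mem_ker]
    simp only [map_add (chi _ _ _), map_mul (chi _ _ _), chi_pw _ z, chi_w _ z]
    rw [map_add, n₃, n₂, n₁]
    field_simp
    ring

end Pool.Agent.Lib.MP_d54a3f_ag
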