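import Pool.Agent.Lib.MP_d54a3f_ag.Cone

/-! Forms, linear substitutions, general position. -/

open MvPolynomial Module

namespace Pool.Agent.Lib.MP_d54a3f_ag

variable {k : Type*} [Field k]

theorem hom_ind {p : ℕ → S k → Prop} (h0 : ∀ c, p 0 (C c)) (hz : ∀ n, p n 0)
    (hadd : ∀ n f g, p n f → p n g → p n (f + g))
    (hmul : ∀ n c i f, p n f → p (n + 1) (C c * X i * f)) {F : S k} {n : ℕ}
    (hF : F.IsHomogeneous n) : p n F := by
  rw [← mem_homogeneousSubmodule, ← homogeneousSubmodule_one_pow] at hF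
  induction hF using Submodule.pow_induction_on_left' with
  | algebraMap r => exact h0 r
  | add x y i _ _ hx hy => exact hadd _ _ _ hx hy
  | mem_mul m hm i x _ hx =>
    suffices ∀ c, p (i + 1) (C c * m * x) by simpa using this 1
    rw [homogeneousSubmodule_one_eq_span_X] at hm
    induction hm using Submodule.span_induction with
    | mem y hy => obtain ⟨j, rfl⟩ := hy; exact fun c ↦ hmul _ _ _ _ hx
    | zero => simpa using hz _
    | add a b _ _ ha hb => exact fun c ↦ by rw [mul_add, add_mul]; exact hadd _ _ _ (ha c) (hb c)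
    | smul a y _ hy => exact fun c ↦ by rw [smul_eq_C_mul, ← mul_assoc, ← map_mul]; exact hy _

theorem scale {A : Type*} [CommRing A] [Algebra k A] (b : Fin 4 → A) (t : A) {F : S k} {n : ℕ}
    (hF : F.IsHomogeneous n) : aeval (fun j ↦ b j * t) F = aeval b F * t ^ n := by
  refine hom_ind (p := fun n F ↦ aeval (fun j ↦ b j * t) F = aeval b F * t ^ n) ?_ ?_ ?_ ?_ hF
  · simp
  · simp
  · intro n f g hf hg
    simp only [map_add, hf, hg, add_mul]
  · intro n c i f hf
    simp only [map_mul, hf, aeval_C, aeval_X]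
    ring

theorem lead {A : Type*} [CommRing A] [Algebra k A] (a b : Fin 4 → A) {F : S k} {n : ℕ}
    (hF : F.IsHomogeneous n) :
    (aeval (fun j ↦ Polynomial.C (a j) + Polynomial.C (b j) * Polynomial.X) F).natDegree ≤ n ∧
    (aeval (fun j ↦ Polynomial.C (a j) + Polynomial.C (b j) * Polynomial.X) F).coeff n =
      aeval b F := by
  set α : S k →ₐ[k] Polynomial A :=
    aeval fun j ↦ Polynomial.C (a j) + Polynomial.C (b j) * Polynomial.X with hα
  refine hom_ind (p := fun n F ↦ (α F).natDegree ≤ n ∧ (α F).coeff n = aeval b F) ?_ ?_ ?_ ?_ hF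
  · simp
  · simp
  · intro n f g hf hg
    simp only [map_add, Polynomial.coeff_add, hf.2, hg.2, and_true]
    exact Polynomial.natDegree_add_le_of_degree_le hf.1 hg.1
  · intro n c i f hf
    have h1 : (α (X i)).natDegree ≤ 1 := by
      rw [hα, aeval_X]
      compute_degree
    have h2 : (α (X i)).coeff 1 = b i := by simp [hα, Polynomial.coeff_C]
    rw [map_mul, map_mul, algHom_C, Polynomial.algebraMap_apply, mul_assoc, add_comm n 1,
      Polynomial.coeff_C_mul, Polynomial.coeff_mul_add_eq_of_natDegree_le h1 hf.1, h2, hf.2]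
    exact ⟨(Polynomial.natDegree_C_mul_le _ _).trans (Polynomial.natDegree_mul_le_of_le h1 hf.1),
      by simp [mul_assoc]⟩

theorem pt_lemma {Q : Ideal (S k)} {v : Fin 4 → k} {t : S k} (h : ∀ j, X j - C (v j) * t ∈ Q)
    {F : S k} {n : ℕ} (hF : F.IsHomogeneous n) : F - C (eval v F) * t ^ n ∈ Q := by
  refine hom_ind (p := fun n F ↦ F - C (eval v F) * t ^ n ∈ Q) ?_ ?_ ?_ ?_ hF
  · simp
  · simp
  · intro n f g hf hg
    convert Q.add_mem hf hg using 1
    simp only [map_add]
    ring
  · intro n c i f hf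
    convert Q.add_mem (Q.mul_mem_left (C c * X i) hf)
      (Q.mul_mem_left (C c * C (eval v f) * t ^ n) (h i)) using 1
    simp only [map_mul, eval_C, eval_X]
    ring

theorem all_X_mem {Q : Ideal (S k)} (hQ : Q.IsPrime) {v : Fin 4 → k} {t : S k}
    (h : ∀ j, X j - C (v j) * t ∈ Q) {F : S k} {n : ℕ} (hF : F.IsHomogeneous n) (hFQ : F ∈ Q)
    (hv : eval v F ≠ 0) (j : Fin 4) : X j ∈ Q := by
  have h1 := Q.sub_mem hFQ (pt_lemma h hF)
  rw [sub_sub_cancel, Ideal.unit_mul_mem_iff_mem _ ((IsUnit.mk0 _ hv).map C)] at h1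
  simpa using Q.add_mem (h j) (Q.mul_mem_left (C (v j)) (hQ.mem_of_pow_mem _ h1))

theorem avoid {𝒬 : Set (Ideal (S k))} (h𝒬 : 𝒬.Finite) {x y : S k}
    (h : ∀ Q ∈ 𝒬, x ∈ Q → y ∉ Q) : {b : k | ∃ Q ∈ 𝒬, x + C b * y ∈ Q}.Finite := by
  have := h𝒬.biUnion (t := fun Q ↦ {b : k | x + C b * y ∈ Q}) fun Q hQ ↦
    Set.Subsingleton.finite fun a ha b hb ↦ by_contra fun hab ↦ by
      have h1 : C (a - b) * y ∈ Q := by
        convert Q.sub_mem ha hb using 1
        rw [map_sub]
        ring
      rw [Ideal.unit_mul_mem_iff_mem _ ((IsUnit.mk0 _ (sub_ne_zero.2 hab)).map C)] at h1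
      exact h Q hQ (by simpa using Q.sub_mem ha (Q.mul_mem_left (C a) h1)) h1
  exact this.subset fun b ⟨Q, h1, h2⟩ ↦ Set.mem_biUnion h1 h2

theorem exists_eval_ne [Infinite k] {n : ℕ} {f : MvPolynomial (Fin n) k} (h : f ≠ 0) :
    ∃ v, eval v f ≠ 0 := by
  by_contra hc
  push Not at hc
  exact h (MvPolynomial.funext fun v ↦ by rw [hc, map_zero])

attribute [local instance] MvPolynomial.gradedAlgebra in
theorem hom_of_dvd {F G : S k} {f : ℕ} (hF : F.IsHomogeneous f) (h0 : F ≠ 0) (hG : Prime G)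
    (h : G ∣ F) : G.IsHomogeneous G.totalDegree := by
  have h1 := ((Ideal.span_singleton_prime hG.ne_zero).2 hG).homogeneousCore
    (𝒜 := homogeneousSubmodule (Fin 4) k)
  have hle := Ideal.toIdeal_homogeneousCore_le (homogeneousSubmodule (Fin 4) k) (Ideal.span {G})
  obtain ⟨G', h2, h3⟩ := h1.exists_mem_prime_of_ne_bot fun e ↦ h0 (Ideal.mem_bot.1 (e ▸
    Ideal.mem_homogeneousCore_of_homogeneous_of_mem ⟨f, hF⟩ (Ideal.mem_span_singleton.2 h)))
  obtain ⟨c, hc⟩ := (hG.associated_of_dvd h3 (Ideal.mem_span_singleton.1 (hle h2))).symm.dvd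
  obtain ⟨n, hn⟩ : ∃ n, homogeneousComponent n G ≠ 0 := by
    by_contra hn
    push Not at hn
    exact hG.ne_zero (by rw [← sum_homogeneousComponent G]; simp [hn])
  have hm := Ideal.mul_mem_right c _ h2
  rw [← hc] at hm
  obtain ⟨e, he⟩ := Ideal.mem_span_singleton.1 (hle (isHom_iff.2 (HomogeneousIdeal.isHomogeneous _)
    G hm n))
  have he0 : e ≠ 0 := fun z ↦ hn (by rw [he, z, mul_zero])
  have h4 := (homogeneousComponent_isHomogeneous n G).totalDegree hn
  have h5 : n ≤ G.totalDegree := not_lt.1 fun z ↦ hn (homogeneousComponent_eq_zero _ _ z)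
  rw [he, totalDegree_mul_of_isDomain hG.ne_zero he0] at h4
  have h6 := (totalDegree_eq_zero_iff_eq_C (p := e)).1 (by omega)
  have h7 : coeff 0 e ≠ 0 := fun z ↦ he0 (by rw [h6, z, map_zero])
  have := (homogeneousComponent_isHomogeneous n G).C_mul (coeff 0 e)⁻¹
  rwa [he, h6, coeff_zero_C, mul_left_comm, ← map_mul, inv_mul_cancel₀ h7, map_one, mul_one,
    show n = G.totalDegree by omega] at this

theorem deg_pos {G : S k} {n : ℕ} (hG : Prime G) (h : G.IsHomogeneous n) : n ≠ 0 := by
  rintro rfl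
  have h1 := (totalDegree_eq_zero_iff_eq_C (p := G)).1 ((totalDegree_zero_iff_isHomogeneous _).2 h)
  exact hG.not_isUnit (h1 ▸ (IsUnit.mk0 _ fun z ↦ hG.ne_zero (by rw [h1, z, map_zero])).map C)

theorem exists_pderiv [IsAlgClosed k] {F : S k} (hF : Irreducible F) : ∃ i, pderiv i F ≠ 0 := by
  by_contra hc
  push Not at hc
  have h1 (m : Fin 4 →₀ ℕ) (hm : m ∈ F.support) (i : Fin 4) : ringChar k ∣ m i := by
    rcases Nat.eq_zero_or_pos (m i) with h | h
    · simp [h]
    have := coeff_pderiv (i := i) F (m - Finsupp.single i 1)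
    rw [hc, coeff_zero, tsub_add_cancel_of_le (Finsupp.single_le_iff.2 h), eq_comm, mul_eq_zero,
      Finsupp.tsub_apply, Finsupp.single_eq_same, ← Nat.cast_add_one, Nat.sub_add_cancel h] at this
    exact (ringChar.spec k _).1 (this.resolve_left (mem_support_iff.1 hm))
  rcases CharP.char_is_prime_or_zero k (ringChar k) with hp | hp
  · have := Fact.mk hp
    choose! d hd using h1
    choose r hr using fun c : k ↦ IsAlgClosed.exists_pow_nat_eq c hp.pos
    refine not_irreducible_pow (x := ∑ m ∈ F.support,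
      monomial (Finsupp.equivFunOnFinite.symm (d m)) (r (coeff m F))) hp.ne_one ?_
    convert hF
    rw [sum_pow_char]
    conv_rhs => rw [F.as_sum]
    refine Finset.sum_congr rfl fun m hm ↦ ?_
    rw [monomial_pow, hr]
    congr 2
    ext i
    simp [hd m hm i]
  · have h2 := (totalDegree_eq_zero_iff_eq_C (p := F)).1 ((totalDegree_eq_zero_iff _ F).2
      fun m hm i ↦ by simpa [hp] using h1 m hm i)
    exact hF.not_isUnit (h2 ▸ (IsUnit.mk0 _ fun z ↦ hF.ne_zero (by rw [h2, z, map_zero])).map C)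

/-- the linear substitution given by a matrix -/
noncomputable def lm (M : Matrix (Fin 4) (Fin 4) k) : S k →ₐ[k] S k := aeval fun i ↦ lin (M i)

theorem lm_X (M : Matrix (Fin 4) (Fin 4) k) (i : Fin 4) : lm M (X i) = lin (M i) := aeval_X _ _

theorem lm_lin (M : Matrix (Fin 4) (Fin 4) k) (c : Fin 4 → k) :
    lm M (lin c) = lin (Matrix.vecMul c M) := by
  simp only [lin, map_sum, map_mul, algHom_C, lm_X, Matrix.vecMul, dotProduct, Finset.sum_mul,
    Finset.mul_sum, algebraMap_eq, mul_assoc]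
  exact Finset.sum_comm

theorem lm_comp {M N : Matrix (Fin 4) (Fin 4) k} (h : N * M = 1) :
    (lm M).comp (lm N) = AlgHom.id k _ := by
  ext i : 1
  rw [AlgHom.comp_apply, lm_X, lm_lin, show Matrix.vecMul (N i) M = (N * M) i from rfl, h]
  simp [lin, Matrix.one_apply, apply_ite C]

theorem lm_hom (M : Matrix (Fin 4) (Fin 4) k) {f : S k} {n : ℕ} (hf : f.IsHomogeneous n) :
    (lm M f).IsHomogeneous n := by
  have := hf.aeval (fun i ↦ lin (M i)) fun i ↦ lin_hom _
  rwa [one_mul] at this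

theorem eval_lin (c v : Fin 4 → k) : eval v (lin c) = ∑ i, c i * v i := by simp [lin]

theorem eval_lm (M : Matrix (Fin 4) (Fin 4) k) (v : Fin 4 → k) (f : S k) :
    eval v (lm M f) = eval (M.mulVec v) f := by
  induction f using MvPolynomial.induction_on with
  | C a => simp [algHom_C]
  | add p q hp hq => simp [hp, hq]
  | mul_X p i hp => simp [hp, lm_X, eval_lin, Matrix.mulVec, dotProduct]

theorem pderiv_lm (M : Matrix (Fin 4) (Fin 4) k) (j : Fin 4) (f : S k) :
    pderiv j (lm M f) = lm M (∑ i, C (M i j) * pderiv i f) := by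
  induction f using MvPolynomial.induction_on with
  | C a => simp [algHom_C]
  | add p q hp hq => simp only [map_add, hp, hq, mul_add, Finset.sum_add_distrib]
  | mul_X p i hp =>
    have h1 : pderiv j (lin (M i)) = C (M i j) := by
      simp [lin, pderiv_X, Pi.single_apply]
    have h2 : ∑ l, C (M l j) * pderiv l (p * X i) =
        (∑ l, C (M l j) * pderiv l p) * X i + p * C (M i j) := by
      simp only [pderiv_mul, mul_add, Finset.sum_add_distrib, Finset.sum_mul, mul_assoc]
      congr 1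
      simp [pderiv_X, Pi.single_apply, mul_comm]
    rw [h2, map_mul, pderiv_mul, hp, lm_X, h1, map_add, map_mul, map_mul, lm_X, algHom_C,
      algebraMap_eq]

/-- the automorphism given by an invertible matrix -/
noncomputable def le {M N : Matrix (Fin 4) (Fin 4) k} (h : N * M = 1) : S k ≃ₐ[k] S k :=
  AlgEquiv.ofAlgHom (lm M) (lm N) (lm_comp h) (lm_comp (mul_eq_one_comm.1 h))

theorem le_apply {M N : Matrix (Fin 4) (Fin 4) k} (h : N * M = 1) (f : S k) :
    le h f = lm M f := rfl

theorem le_symm {M N : Matrix (Fin 4) (Fin 4) k} (h : N * M = 1) (f : S k) :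
    (le h).symm f = lm N f := rfl

end Pool.Agent.Lib.MP_d54a3f_ag
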