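import Pool.Agent.Lib.MP_d54a3f_ag.Theta
import Pool.Agent.Lib.MP_d54a3f_ag.Bertini
import Pool.Agent.Lib.MP_d54a3f_ag.Lift

/-! Maximally intersecting integral ACM curves on a surface of low degree have ACM union. -/

open MvPolynomial Module

namespace Pool.Agent.Lib.MP_d54a3f_ag

universe u

variable {k : Type u} [Field k]

/-- the relevant minimal primes -/
def mp (I : Ideal (S k)) : Set (Ideal (S k)) := {Q | Q ∈ I.minimalPrimes ∧ ∃ i, X i ∉ Q}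

theorem mp_fin (I : Ideal (S k)) : (mp I).Finite :=
  (Ideal.finite_minimalPrimes_of_isNoetherianRing _ I).subset fun _ h ↦ h.1

theorem mp_q {P : Ideal (S k)} {r F : S k} (hF : F ∈ P) {Q : Ideal (S k)}
    (h : Q ∈ mp (P ⊔ Ideal.span {r})) : Q.IsPrime ∧ F ∈ Q ∧ ¬ mm k ≤ Q :=
  ⟨h.1.1.1, h.1.1.2 (Ideal.mem_sup_left hF), fun e ↦ h.2.elim fun i hi ↦ hi (e (X_mem_mm i))⟩

theorem good2 [IsAlgClosed k] {P₁ P₂ : Ideal (S k)} (h₁ : IsIntACM P₁) (h₂ : IsIntACM P₂)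
    (hne : P₁ ≠ P₂) {F₁ F₂ T₁ T₂ : S k} {f₁ f₂ t₁ t₂ n₁ n₂ : ℕ}
    (hF₁ : F₁.IsHomogeneous f₁) (m₁ : F₁ ∈ P₁) (p₁ : Prime F₁) (hT₁ : T₁.IsHomogeneous t₁)
    (o₁ : T₁ ∉ P₁) (hn₁ : hvec P₁ n₁ ≠ 0) (l₁ : f₁ + t₁ ≤ n₁ + 1)
    (hF₂ : F₂.IsHomogeneous f₂) (m₂ : F₂ ∈ P₂) (p₂ : Prime F₂) (hT₂ : T₂.IsHomogeneous t₂)
    (o₂ : T₂ ∉ P₂) (hn₂ : hvec P₂ n₂ ≠ 0) (l₂ : f₂ + t₂ ≤ n₂ + 1) :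
    ∃ (φ : Fr k) (G₁ G₁' G₂ G₂' : S k), Good φ P₁ F₁ G₁ G₁' (Ideal.span {T₁}) ∧
      Good φ P₂ F₂ G₂ G₂' (Ideal.span {T₂}) ∧ Prim ((P₁ ⊔ P₂) ⊔ Ideal.span {φ.w}) := by
  obtain ⟨G₁, G₁', d₁, a₁, b₁, c₁, e₁, q₁, hq₁, r₁, s₁, hr₁, hr₁', g₁⟩ :=
    exists_theta h₁ hF₁ m₁ p₁ hT₁ o₁ hn₁ l₁
  obtain ⟨G₂, G₂', d₂, a₂, b₂, c₂, e₂, q₂, hq₂, r₂, s₂, hr₂, hr₂', g₂⟩ :=
    exists_theta h₂ hF₂ m₂ p₂ hT₂ o₂ hn₂ l₂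
  obtain ⟨g, d, hg, hg₂, hg₁⟩ := not_le_of_ne h₁ h₂ hne
  have hP {P : Ideal (S k)} (h : IsIntACM P) : ¬ mm k ≤ P :=
    fun e ↦ h.exists_X.elim fun i hi ↦ hi (e (X_mem_mm i))
  obtain ⟨φ, h, hw⟩ := bertini (F := ![F₁, F₂]) (T := ![G₁ * G₁', G₂ * G₂'])
    (𝒬 := {P₁, P₂} ∪ (mp (P₁ ⊔ Ideal.span {g}) ∪
      (mp (P₁ ⊔ Ideal.span {r₁}) ∪ mp (P₂ ⊔ Ideal.span {r₂}))))
    ⟨Fin.forall_fin_two.2 ⟨p₁, p₂⟩, Fin.forall_fin_two.2 ⟨⟨_, hF₁⟩, ⟨_, hF₂⟩⟩,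
      Fin.forall_fin_two.2 ⟨c₁, c₂⟩,
      (Set.toFinite _).union ((mp_fin _).union ((mp_fin _).union (mp_fin _))), by
        rintro Q ((rfl | rfl) | h | h | h)
        · exact ⟨h₁.1, ⟨0, m₁⟩, hP h₁⟩
        · exact ⟨h₂.1, ⟨1, m₂⟩, hP h₂⟩
        · exact ⟨(mp_q m₁ h).1, ⟨0, (mp_q m₁ h).2.1⟩, (mp_q m₁ h).2.2⟩
        · exact ⟨(mp_q m₁ h).1, ⟨0, (mp_q m₁ h).2.1⟩, (mp_q m₁ h).2.2⟩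
        · exact ⟨(mp_q m₂ h).1, ⟨1, (mp_q m₂ h).2.1⟩, (mp_q m₂ h).2.2⟩⟩
  obtain ⟨⟨u₁, v₁⟩, u₂, v₂⟩ := Fin.forall_fin_two.1 h
  refine ⟨φ, G₁, G₁', G₂, G₂', ⟨h₁, hw _ (by simp), m₁, ⟨_, hF₁⟩, u₁.ne_zero,
    (Ideal.span_singleton_prime u₁.ne_zero).2 u₁, ⟨_, a₁, b₁⟩,
    fun h ↦ v₁ (Ideal.mul_mem_right _ _ h), fun h ↦ v₁ (Ideal.mul_mem_left _ _ h), e₁,
    q₁, hq₁, r₁, g₁, prim_of_avoid h₁.1 h₁.2.hom h₁.2.ch3 hr₁ φ.w_hom hr₁' fun Q hQ hX ↦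
      hw Q (Or.inr (Or.inr (Or.inl ⟨hQ, hX⟩)))⟩, ⟨h₂, hw _ (by simp), m₂, ⟨_, hF₂⟩, u₂.ne_zero,
    (Ideal.span_singleton_prime u₂.ne_zero).2 u₂, ⟨_, a₂, b₂⟩,
    fun h ↦ v₂ (Ideal.mul_mem_right _ _ h), fun h ↦ v₂ (Ideal.mul_mem_left _ _ h), e₂,
    q₂, hq₂, r₂, g₂, prim_of_avoid h₂.1 h₂.2.hom h₂.2.ch3 hr₂ φ.w_hom hr₂' fun Q hQ hX ↦
      hw Q (Or.inr (Or.inr (Or.inr ⟨hQ, hX⟩)))⟩, ?_⟩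
  exact (prim_of_avoid h₁.1 h₁.2.hom h₁.2.ch3 hg φ.w_hom hg₁ fun Q hQ hX ↦
    hw Q (Or.inr (Or.inl ⟨hQ, hX⟩))).mono (sup_le_sup_right (sup_le_sup_left
      ((Ideal.span_singleton_le_iff_mem _).2 hg₂) _) _)

theorem exists_factor {P : Ideal (S k)} (hP : P.IsPrime) {F : S k} (h0 : F ≠ 0) (hF : F ∈ P) :
    ∃ G, Prime G ∧ G ∣ F ∧ G ∈ P := by
  obtain ⟨s, h1, h2⟩ := UniqueFactorizationMonoid.exists_prime_factors F h0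
  obtain ⟨c, hc⟩ := h2.symm.dvd
  obtain ⟨G, h3, h4⟩ := (hP.multiset_prod_mem_iff_exists_mem s).1 (hc ▸ P.mul_mem_right c hF)
  exact ⟨G, h1 G h3, (Multiset.dvd_prod h3).trans h2.dvd, h4⟩

theorem main [IsAlgClosed k] {P₁ P₂ : Ideal (S k)} (h₁ : IsIntACM P₁) (h₂ : IsIntACM P₂)
    (hne : P₁ ≠ P₂) (hR : Realizes P₁ P₂) {F : S k} {f n₁ n₂ : ℕ} (hF : F.IsHomogeneous f)
    (hF0 : F ≠ 0) (m₁ : F ∈ P₁) (m₂ : F ∈ P₂) (hn₁ : hvec P₁ n₁ ≠ 0) (hn₂ : hvec P₂ n₂ ≠ 0)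
    (l₁ : f ≤ n₁ + 1) (l₂ : f ≤ n₂ + 1) : IsACM (P₁ ⊓ P₂) := by
  have hdeg {G : S k} (h : G ∣ F) : G.totalDegree ≤ f :=
    hF.totalDegree hF0 ▸ totalDegree_le_of_dvd_of_isDomain h hF0
  by_cases hc : ∃ G, Prime G ∧ G ∣ F ∧ G ∈ P₁ ∧ G ∈ P₂
  · obtain ⟨G, hp, hd, g₁, g₂⟩ := hc
    have hG := hom_of_dvd hF hF0 hp hd
    obtain ⟨φ, G₁, G₁', G₂, G₂', a, b, c⟩ := good2 h₁ h₂ hne hG g₁ hp (isHomogeneous_one _ _)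
      ((Ideal.ne_top_iff_one _).1 h₁.1.ne_top) hn₁ ((hdeg hd).trans l₁) hG g₂ hp
      (isHomogeneous_one _ _) ((Ideal.ne_top_iff_one _).1 h₂.1.ne_top) hn₂ ((hdeg hd).trans l₂)
    rw [Ideal.span_singleton_one] at a b
    exact acm_same a b hR c
  · obtain ⟨F₁, p₁, d₁, g₁⟩ := exists_factor h₁.1 hF0 m₁
    obtain ⟨F₂, p₂, d₂, g₂⟩ := exists_factor h₂.1 hF0 m₂
    have o₁ : F₂ ∉ P₁ := fun h ↦ hc ⟨F₂, p₂, d₂, h, g₂⟩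
    have o₂ : F₁ ∉ P₂ := fun h ↦ hc ⟨F₁, p₁, d₁, g₁, h⟩
    have hd : F₁ * F₂ ∣ F := by
      obtain ⟨c, rfl⟩ := d₂
      rw [mul_comm]
      refine mul_dvd_mul_left _ ((p₁.dvd_or_dvd d₁).resolve_left ?_)
      rintro ⟨e, he⟩
      exact o₁ (he ▸ P₁.mul_mem_right e g₁)
    have hle := hdeg hd
    rw [totalDegree_mul_of_isDomain p₁.ne_zero p₂.ne_zero] at hle
    have a₁ := hom_of_dvd hF hF0 p₁ d₁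
    have a₂ := hom_of_dvd hF hF0 p₂ d₂
    obtain ⟨φ, G₁, G₁', G₂, G₂', a, b, c⟩ := good2 h₁ h₂ hne a₁ g₁ p₁ a₂ o₁ hn₁ (hle.trans l₁)
      a₂ g₂ p₂ a₁ o₂ hn₂ (by omega)
    exact acm_distinct a b hR c

end Pool.Agent.Lib.MP_d54a3f_ag
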