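import Mathlib

/-! Irreducibility of the members of a pencil through a smooth point. -/

open Polynomial

namespace Pool.Agent.Lib.MP_d54a3f_ag

theorem bez {A : Type*} [CommRing A] [IsDomain A] [IsIntegrallyClosed A] {F G : A[X]}
    (hm : F.Monic) (hF : Irreducible F) (h : ¬ F ∣ G) :
    ∃ d : A, d ≠ 0 ∧ ∃ a b, C d = a * F + b * G := by
  let K := FractionRing A
  have inj := IsFractionRing.injective A K
  obtain ⟨u, v, huv⟩ := ((hm.irreducible_iff_irreducible_map_fraction_map (K := K)).1
    hF).coprime_iff_not_dvd.2 fun e ↦ h ((map_dvd_map _ inj hm).1 e)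
  obtain ⟨b, hb, eb⟩ := IsLocalization.integerNormalization_spec (nonZeroDivisors A) u
  obtain ⟨c, hc, ec⟩ := IsLocalization.integerNormalization_spec (nonZeroDivisors A) v
  refine ⟨b * c, mul_ne_zero (nonZeroDivisors.ne_zero hb) (nonZeroDivisors.ne_zero hc),
    C c * IsLocalization.integerNormalization (nonZeroDivisors A) u,
    C b * IsLocalization.integerNormalization (nonZeroDivisors A) v,
    map_injective _ inj ?_⟩
  simp only [Polynomial.map_add, Polynomial.map_mul, map_C, eb, ec, map_mul,
    Algebra.smul_def, Polynomial.algebraMap_apply]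
  linear_combination (-(C (algebraMap A K b) * C (algebraMap A K c))) * huv

theorem spec_lin {R J N : Type*} [CommRing R] [IsDomain R] [Fintype J] (r : N → J → R)
    (h : ∀ c : J → R, (∀ n, ∑ j, r n j * c j = 0) → c = 0) :
    ∃ D : R, D ≠ 0 ∧ ∀ {E : Type*} [Field E] (ev : R →+* E), ev D ≠ 0 →
      ∀ c : J → E, (∀ n, ∑ j, ev (r n j) * c j = 0) → c = 0 := by
  classical
  let K := FractionRing R
  have inj := IsFractionRing.injective R K
  let L : (J → R) →ₗ[R] Module.Dual K (J → K) :=
    { toFun := fun y ↦ ∑ j, y j • LinearMap.proj j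
      map_add' := fun x y ↦ by simp [add_smul, Finset.sum_add_distrib]
      map_smul' := fun a x ↦ by simp [mul_smul, Finset.smul_sum] }
  have hL (y : J → R) (c : J → K) : L y c = ∑ j, algebraMap R K (y j) * c j := by
    simp [L, Algebra.smul_def]
  have Linj : Function.Injective L := (injective_iff_map_eq_zero L).2 fun y hy ↦ funext fun j ↦
    inj (by simpa [hL, Pi.single_apply] using DFunLike.congr_fun hy (Pi.single j 1))
  have top : Submodule.span K (Set.range fun n ↦ L (r n)) = ⊤ := by
    refine Submodule.span_eq_top_of_ne_zero fun z hz ↦ ?_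
    by_contra hc
    push Not at hc
    obtain ⟨b, hb⟩ := IsLocalization.exist_integer_multiples_of_finite (nonZeroDivisors R) z
    choose c hc' using hb
    have := h c fun n ↦ inj (by
      have := hc _ ⟨n, rfl⟩
      rw [hL] at this
      simp only [map_sum, map_mul, hc', mul_smul_comm, ← Finset.smul_sum, this, smul_zero,
        map_zero])
    refine hz (funext fun j ↦ ?_)
    have e := hc' j
    rw [this, Pi.zero_apply, map_zero, eq_comm, Algebra.smul_def, mul_eq_zero] at e
    exact e.resolve_left fun e ↦ nonZeroDivisors.coe_ne_zero b (inj (e.trans (map_zero _).symm))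
  have key (j : J) : ∃ t : nonZeroDivisors R,
      (Pi.single j t.1 : J → R) ∈ Submodule.span R (Set.range r) := by
    obtain ⟨t, ht⟩ := multiple_mem_span_of_mem_localization_span (nonZeroDivisors R) K _
      (L (Pi.single j 1)) (top ▸ Submodule.mem_top)
    refine ⟨t, ?_⟩
    rw [Set.range_comp' L r, ← Submodule.map_span, Submonoid.smul_def, ← map_smul] at ht
    obtain ⟨y, hy, e⟩ := ht
    rwa [Linj e, ← Pi.single_smul, smul_eq_mul, mul_one] at hy
  choose t ht using key
  refine ⟨∏ j, (t j).1, Finset.prod_ne_zero_iff.2 fun j _ ↦ nonZeroDivisors.coe_ne_zero _,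
    fun ev hev c hc ↦ funext fun j ↦ ?_⟩
  have (y : J → R) (hy : y ∈ Submodule.span R (Set.range r)) : ∑ j, ev (y j) * c j = 0 := by
    induction hy using Submodule.span_induction with
    | mem y hy => obtain ⟨n, rfl⟩ := hy; exact hc n
    | zero => simp
    | add x y _ _ hx hy => simp [add_mul, Finset.sum_add_distrib, hx, hy]
    | smul a x _ hx => simp [mul_assoc, ← Finset.mul_sum, hx]
  have e := this _ (ht j)
  rw [Finset.sum_eq_single j (fun i _ hi ↦ by simp [hi]) (by simp), Pi.single_eq_same] at e
  rw [map_prod, Finset.prod_ne_zero_iff] at hev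
  exact (mul_eq_zero.1 e).resolve_left (hev j (Finset.mem_univ j))

section
variable {R : Type*} [CommRing R]

theorem coeff_swap (p : R[X][X]) (i j : ℕ) :
    ((Bivariate.swap p).coeff i).coeff j = (p.coeff j).coeff i := by
  induction p using Polynomial.induction_on' with
  | add p q hp hq => simp [hp, hq]
  | monomial n q =>
    induction q using Polynomial.induction_on' with
    | add p q hp hq => simp [hp, hq]
    | monomial m a =>
      rw [Bivariate.swap_monomial_monomial]
      simp only [coeff_monomial]
      split_ifs <;> simp_all [coeff_monomial]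

/-- the polynomial with a given finite array of coefficients -/
noncomputable def mkp {B f : ℕ} (c : Fin B × Fin f → R) : R[X][X] :=
  ∑ j, monomial j.2 (monomial j.1 (c j))

theorem coeff_mkp {B f : ℕ} (c : Fin B × Fin f → R) (i j : ℕ) :
    ((mkp c).coeff j).coeff i = if h : i < B ∧ j < f then c (⟨i, h.1⟩, ⟨j, h.2⟩) else 0 := by
  simp only [mkp, finsetSum_coeff]
  split_ifs with h
  · rw [Finset.sum_eq_single (⟨i, h.1⟩, ⟨j, h.2⟩) _ (by simp)]
    · simp
    · rintro ⟨a, b⟩ - hab
      simp only [coeff_monomial]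
      split_ifs with h1
      · rw [coeff_monomial, if_neg]
        rintro rfl
        subst h1
        exact hab rfl
      · simp
  · refine Finset.sum_eq_zero fun ⟨a, b⟩ _ ↦ ?_
    simp only [coeff_monomial]
    split_ifs with h1
    · rw [coeff_monomial, if_neg]
      rintro rfl
      exact h ⟨a.2, h1 ▸ b.2⟩
    · simp

theorem eval_mkp {B f : ℕ} (c : Fin B × Fin f → R) (φ : PowerSeries R) (n : ℕ) :
    PowerSeries.coeff n ((mkp c).eval₂ coeToPowerSeries.ringHom φ) =
      ∑ j : Fin B × Fin f, PowerSeries.coeff n (PowerSeries.X ^ j.1.1 * φ ^ j.2.1) * c j := by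
  simp only [mkp, eval₂_finsetSum, map_sum, eval₂_monomial, coeToPowerSeries.ringHom_apply]
  refine Finset.sum_congr rfl fun j _ ↦ ?_
  rw [← C_mul_X_pow_eq_monomial, coe_mul, coe_pow, coe_C, coe_X, mul_assoc,
    PowerSeries.coeff_C_mul, mul_comm]

end

theorem spec {E : Type*} [Field E] {F : E[X][X][X]} (hm : F.Monic) (hF : Irreducible F) {z : E[X]}
    (h0 : F.eval₂ (evalRingHom 0) z = 0) (h1 : IsUnit (F.derivative.eval₂ (evalRingHom 0) z)) :
    {a : E | ¬ Irreducible (F.map (mapRingHom (evalRingHom a)))}.Finite := by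
  let ι : E[X][X] →+* PowerSeries E[X] := coeToPowerSeries.ringHom
  have hι : Function.Injective ι := coe_injective _
  have hc (G : E[X][X][X]) : PowerSeries.constantCoeff ((G.map ι).eval (PowerSeries.C z)) =
      G.eval₂ (evalRingHom 0) z := by
    rw [eval_map, hom_eval₂, PowerSeries.constantCoeff_C]
    congr 1
    exact Polynomial.ringHom_ext (fun _ ↦ by simp [ι]) (by simp [ι])
  obtain ⟨φ, hφ, -⟩ := HenselianRing.is_henselian (I := Ideal.span {PowerSeries.X}) _ (hm.map ι)
    (PowerSeries.C z) (by rw [Ideal.mem_span_singleton, PowerSeries.X_dvd_iff, hc, h0])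
    (IsUnit.map _ (by rwa [PowerSeries.isUnit_iff_constantCoeff, derivative_map, hc]))
  rw [IsRoot.def, eval_map] at hφ
  set B := (Bivariate.swap F).natDegree + 1 with hB
  obtain ⟨D, hD, hspec⟩ := spec_lin (J := Fin B × Fin F.natDegree)
    (fun n j ↦ PowerSeries.coeff n (PowerSeries.X ^ j.1.1 * φ ^ j.2.1)) fun c hc ↦ by
      have e : (mkp c).eval₂ ι φ = 0 := PowerSeries.ext fun n ↦ (eval_mkp c φ n).trans (hc n)
      have e1 : mkp c = 0 := by
        refine eq_zero_of_dvd_of_degree_lt (p := F) (by_contra fun hn ↦ ?_) ?_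
        · obtain ⟨d, hd, a, b, h⟩ := bez hm hF hn
          have := congrArg (eval₂ ι φ) h
          rw [eval₂_C, eval₂_add, eval₂_mul, eval₂_mul, hφ, e, mul_zero, mul_zero,
            add_zero] at this
          exact hd (hι (this.trans (map_zero _).symm))
        · rw [degree_eq_natDegree hm.ne_zero, degree_lt_iff_coeff_zero]
          intro m hm
          ext1 i
          rw [coeff_mkp, dif_neg (by omega), coeff_zero]
      funext j
      have := coeff_mkp c j.1 j.2
      rwa [e1, dif_pos ⟨j.1.2, j.2.2⟩, eq_comm] at this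
  refine (finite_setOfPred_isRoot hD).subset fun a ha ↦ by_contra fun hr ↦ ha ?_
  set Fa := F.map (mapRingHom (evalRingHom a)) with hFa
  have hma : Fa.Monic := hm.map _
  have hdeg : Fa.natDegree = F.natDegree := hm.natDegree_map _
  have hpos : F.natDegree ≠ 0 := fun e ↦ hF.not_isUnit (hm.natDegree_eq_zero.1 e ▸ isUnit_one)
  set ψ := PowerSeries.map (evalRingHom a) φ with hψ
  have hroot : Fa.eval₂ coeToPowerSeries.ringHom ψ = 0 := by
    have := congrArg (PowerSeries.map (evalRingHom a)) hφ
    rw [hom_eval₂, map_zero] at this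
    rw [hFa, eval₂_map, ← this]
    congr 1
    exact Polynomial.ringHom_ext (fun _ ↦ by simp [ι]) (by simp [ι])
  have hsw : (Bivariate.swap Fa).natDegree < B := by
    refine Nat.lt_succ_of_le (natDegree_le_iff_coeff_eq_zero.2 fun i hi ↦ ?_)
    ext1 j
    rw [coeff_swap, hFa, coeff_map, coe_mapRingHom, coeff_map, ← coeff_swap,
      coeff_eq_zero_of_natDegree_lt hi]
    simp
  have key (g h : E[X][X]) (hg : g.Monic) (hh : h.Monic) (e : g * h = Fa)
      (hz : g.eval₂ coeToPowerSeries.ringHom ψ = 0) : h = 1 := by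
    by_contra hne
    have d1 : g.natDegree < F.natDegree := by
      have := hg.natDegree_mul hh
      have := mt hh.natDegree_eq_zero.1 hne
      rw [e] at *
      omega
    have d2 : (Bivariate.swap g).natDegree < B :=
      (natDegree_le_of_dvd (_root_.map_dvd Bivariate.swap ⟨h, e.symm⟩)
        ((map_ne_zero_iff _ Bivariate.swap.injective).2 hma.ne_zero)).trans_lt hsw
    have eg : g = mkp fun j : Fin B × Fin F.natDegree ↦ (g.coeff j.2).coeff j.1 := by
      ext j i
      rw [coeff_mkp]
      split_ifs with hij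
      · rfl
      · rcases not_and_or.1 hij with h' | h'
        · rw [← coeff_swap, coeff_eq_zero_of_natDegree_lt (p := Bivariate.swap g) (by omega),
            coeff_zero]
        · rw [coeff_eq_zero_of_natDegree_lt (p := g) (by omega), coeff_zero]
    have := hspec (evalRingHom a) hr (fun j ↦ (g.coeff j.2).coeff j.1) fun n ↦ by
      have := eval_mkp (fun j : Fin B × Fin F.natDegree ↦ (g.coeff j.2).coeff j.1) ψ n
      rw [← eg, hz, map_zero] at this
      rw [this]
      refine Finset.sum_congr rfl fun j _ ↦ ?_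
      rw [← PowerSeries.coeff_map, map_mul, map_pow, map_pow, PowerSeries.map_X]
    rw [this] at eg
    exact hg.ne_zero (eg.trans (by simp [mkp]))
  refine (irreducible_of_monic hma fun e ↦ hpos (by rw [← hdeg, e, natDegree_one])).2
    fun g h hg hh e ↦ ?_
  rw [← e, eval₂_mul, mul_eq_zero] at hroot
  rcases hroot with hz | hz
  · exact Or.inr (key g h hg hh e hz)
  · exact Or.inl (key h g hh hg (mul_comm g h ▸ e) hz)

end Pool.Agent.Lib.MP_d54a3f_ag
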