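import Pool.Agent.Lib.MP_d54a3f_ag.Lin
import Pool.Agent.Lib.MP_d54a3f_ag.Spec

/-! Plane sections of an irreducible surface in a pencil. -/

open MvPolynomial Module

namespace Pool.Agent.Lib.MP_d54a3f_ag

variable {k : Type*} [Field k]

abbrev A3 (k : Type*) [Field k] := MvPolynomial (Fin 3) k

abbrev EE (k : Type*) [Field k] := FractionRing (Polynomial k)

noncomputable def sv (k : Type*) [Field k] : EE k := algebraMap (Polynomial k) _ Polynomial.X

theorem sv_ne : sv k ≠ 0 :=
  (map_ne_zero_iff _ (IsFractionRing.injective _ _)).2 Polynomial.X_ne_zero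

noncomputable def rho (k : Type*) [Field k] : A3 k →+* Polynomial (Polynomial (EE k)) :=
  eval₂Hom (Polynomial.C.comp (Polynomial.C.comp (algebraMap k _)))
    ![Polynomial.C Polynomial.X * Polynomial.X, Polynomial.X, Polynomial.C (Polynomial.C (sv k))]

theorem e_X1 : finSuccEquiv k 3 (X 1) = Polynomial.C (X 0) := finSuccEquiv_X_succ (j := 0)

theorem e_X2 : finSuccEquiv k 3 (X 2) = Polynomial.C (X 1) := finSuccEquiv_X_succ (j := 1)

theorem e_X3 : finSuccEquiv k 3 (X 3) = Polynomial.C (X 2) := finSuccEquiv_X_succ (j := 2)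

theorem e_C (c : k) : finSuccEquiv k 3 (C c) = Polynomial.C (C c) := by simp [finSuccEquiv_apply]

theorem pull (L : Type*) [Field L] [Algebra (A3 k) L] [IsFractionRing (A3 k) L]
    {F : Polynomial (A3 k)} (hm : F.Monic) (hF : Irreducible F) : Irreducible (F.map (rho k)) := by
  have inj := IsFractionRing.injective (A3 k) L
  let g : Polynomial k →+* L :=
    (algebraMap (A3 k) L).comp (Polynomial.aeval (X 2 : A3 k) : Polynomial k →ₐ[k] A3 k)
  have hg : Function.Injective g := by
    refine inj.comp (Function.LeftInverse.injective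
      (g := (aeval fun _ ↦ Polynomial.X : A3 k →ₐ[k] Polynomial k)) fun p ↦ ?_)
    change aeval _ (Polynomial.aeval _ p) = p
    rw [← Polynomial.aeval_algHom_apply, aeval_X, Polynomial.aeval_X_left_apply]
  let σ : EE k →+* L := IsFractionRing.lift hg
  have hy : algebraMap (A3 k) L (X 1) ≠ 0 := (map_ne_zero_iff _ inj).2 (X_ne_zero _)
  let ρ' : Polynomial (Polynomial (EE k)) →+* L := Polynomial.eval₂RingHom
    (Polynomial.eval₂RingHom σ (algebraMap (A3 k) L (X 0) / algebraMap (A3 k) L (X 1)))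
    (algebraMap (A3 k) L (X 1))
  have h1 : ρ'.comp (rho k) = algebraMap (A3 k) L := by
    refine MvPolynomial.ringHom_ext (fun c ↦ ?_) fun i ↦ ?_
    · have : σ (algebraMap k (EE k) c) = algebraMap (A3 k) L (C c) := by
        rw [IsScalarTower.algebraMap_apply k (Polynomial k) (EE k), IsFractionRing.lift_algebraMap]
        simp [g]
      simpa [ρ', rho] using this
    · have : σ (sv k) = algebraMap (A3 k) L (X 2) := by
        rw [sv, IsFractionRing.lift_algebraMap]
        simp [g]
      fin_cases i <;> simp [ρ', rho, hy, this]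
  refine Polynomial.Monic.irreducible_of_irreducible_map (R := Polynomial (Polynomial (EE k)))
    (S := L) ρ' _ (hm.map _) ?_
  rw [Polynomial.map_map, h1]
  exact (hm.irreducible_iff_irreducible_map_fraction_map).1 hF

theorem monic_e {F : S k} {f : ℕ} (hF : F.IsHomogeneous f) (h : eval (Pi.single 0 1) F = 1) :
    (finSuccEquiv k 3 F).Monic ∧ (finSuccEquiv k 3 F).natDegree = f := by
  have h1 := lead (A := A3 k) (Fin.cases 0 X) (fun j ↦ C (Pi.single (M := fun _ ↦ k) 0 1 j)) hF
  have h2 : aeval (fun j ↦ Polynomial.C ((Fin.cases 0 X : Fin 4 → A3 k) j) +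
      Polynomial.C (C (Pi.single (M := fun _ ↦ k) 0 1 j)) * Polynomial.X) =
        (finSuccEquiv k 3).toAlgHom := by
    ext j : 1
    refine Fin.cases ?_ (fun i ↦ ?_) j <;> simp [finSuccEquiv_X_zero, finSuccEquiv_X_succ]
  have h3 : aeval (fun j ↦ (C (Pi.single (M := fun _ ↦ k) 0 1 j) : A3 k)) F = 1 := by
    have := aeval_algebraMap_apply (A3 k) (Pi.single (M := fun _ ↦ k) 0 1) F
    rw [aeval_eq_eval, h, map_one] at this
    exact this
  rw [h2, h3] at h1
  exact ⟨Polynomial.monic_of_natDegree_le_of_coeff_eq_one f h1.1 h1.2,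
    Polynomial.natDegree_eq_of_le_of_coeff_ne_zero h1.1 (h1.2 ▸ one_ne_zero)⟩

theorem e_pderiv (F : S k) :
    finSuccEquiv k 3 (pderiv 0 F) = Polynomial.derivative (finSuccEquiv k 3 F) := by
  induction F using MvPolynomial.induction_on with
  | C a => simp [finSuccEquiv_apply]
  | add p q hp hq => simp [hp, hq]
  | mul_X p i hp =>
    rw [pderiv_mul, map_add, map_mul, map_mul, map_mul, hp, Polynomial.derivative_mul]
    refine Fin.cases ?_ (fun j ↦ ?_) i
    · simp [finSuccEquiv_X_zero]
    · simp [finSuccEquiv_X_succ, pderiv_X_of_ne (Fin.succ_ne_zero j)]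

/-- the planes of the pencil -/
def fr (a : k) : Fr k := ⟨![0, 1, a, 0], ![0, 1, 0, 0], by simp [Fin.sum_univ_four]⟩

theorem fr_w (a : k) : (fr a).w = X 1 + C a * X 2 := by simp [Fr.w, fr, lin, Fin.sum_univ_four]

theorem pencil1 {F : S k} {f : ℕ} (hF : F.IsHomogeneous f) (hp : Prime F)
    (h : eval (Pi.single 0 1) F = 1) {c : k} (h0 : eval ![c, 0, 0, 1] F = 0)
    (h1 : eval ![c, 0, 0, 1] (pderiv 0 F) ≠ 0) : {a : k | ¬ Prime ((fr a).pw F)}.Finite := by
  have hm := (monic_e hF h).1
  have key {G : S k} {n : ℕ} (hG : G.IsHomogeneous n) :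
      ((finSuccEquiv k 3 G).map (rho k)).eval₂ (Polynomial.evalRingHom 0)
        (Polynomial.C (algebraMap k (EE k) c * sv k)) =
      Polynomial.C (algebraMap k (EE k) (eval ![c, 0, 0, 1] G) * sv k ^ n) := by
    rw [← aeval_eq_eval, ← aeval_algebraMap_apply, ← scale _ _ hG, Polynomial.eval₂_map]
    have : (Polynomial.eval₂RingHom ((Polynomial.evalRingHom 0).comp (rho k))
        (Polynomial.C (algebraMap k (EE k) c * sv k))).comp (finSuccEquiv k 3 : S k →+* _) =
        Polynomial.C.comp (aeval (fun j ↦ algebraMap k (EE k) (![c, 0, 0, 1] j) * sv k) :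
          S k →ₐ[k] EE k) := by
      refine MvPolynomial.ringHom_ext (fun c ↦ ?_) fun i ↦ ?_
      · simp [e_C, rho]
      · fin_cases i <;> simp [finSuccEquiv_X_zero, e_X1, e_X2, e_X3, rho]
    exact DFunLike.congr_fun this G
  have hfin := spec (hm.map _) (pull (FractionRing (A3 k)) hm ((MulEquiv.irreducible_iff (finSuccEquiv k 3)).2
    hp.irreducible)) (z := Polynomial.C (algebraMap k (EE k) c * sv k))
    (by rw [key hF, h0]; simp) (by
      rw [Polynomial.derivative_map, ← e_pderiv, key hF.pderiv]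
      exact (IsUnit.mk0 _ (mul_ne_zero ((map_ne_zero _).2 h1) (pow_ne_zero _ sv_ne))).map _)
  refine (hfin.preimage (f := fun a : k ↦ algebraMap k (EE k) (-a)) fun a _ b _ e ↦
    neg_injective ((algebraMap k (EE k)).injective e)).subset fun a ha hi ↦ ha ?_
  let σ : A3 k →+* A3 k := eval₂Hom C ![C (-a) * X 1, X 1, X 2]
  have e1 : finSuccEquiv k 3 ((fr a).pw F) = (finSuccEquiv k 3 F).map σ := by
    have : (finSuccEquiv k 3 : S k →+* _).comp ((fr a).pw : S k →+* _) =
        (Polynomial.mapRingHom σ).comp (finSuccEquiv k 3 : S k →+* _) := by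
      refine MvPolynomial.ringHom_ext (fun c ↦ ?_) fun i ↦ ?_
      · simp [e_C, σ]
      · simp only [RingHom.comp_apply, RingHom.coe_coe, Fr.pw_X, fr_w]
        fin_cases i <;> simp [finSuccEquiv_X_zero, e_X1, e_X2, e_X3, e_C, fr, σ]
    exact DFunLike.congr_fun this F
  rw [← irreducible_iff_prime, ← MulEquiv.irreducible_iff (finSuccEquiv k 3), e1]
  refine (hm.map _).irreducible_of_irreducible_map ((Polynomial.mapRingHom
    (Polynomial.evalRingHom (algebraMap k (EE k) (-a)))).comp (rho k)) _ ?_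
  convert hi using 1
  rw [Polynomial.map_map, Polynomial.map_map]
  congr 1
  refine MvPolynomial.ringHom_ext (fun c ↦ ?_) fun i ↦ ?_
  · simp [σ, rho]
  · fin_cases i <;> simp [σ, rho]

theorem pencil {F : S k} {f : ℕ} (hF : F.IsHomogeneous f) (hp : Prime F)
    (h : eval (Pi.single 0 1) F ≠ 0) {c : k} (h0 : eval ![c, 0, 0, 1] F = 0)
    (h1 : eval ![c, 0, 0, 1] (pderiv 0 F) ≠ 0) : {a : k | ¬ Prime ((fr a).pw F)}.Finite := by
  have hu : IsUnit (C (eval (Pi.single 0 1) F)⁻¹ : S k) := (IsUnit.mk0 _ (inv_ne_zero h)).map C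
  have := pencil1 (hF.C_mul (eval (Pi.single 0 1) F)⁻¹) ((prime_isUnit_mul hu).2 hp)
    (by simp [h]) (c := c) (by simp [h0]) (by simp [pderiv_C_mul, h, h1])
  simpa only [map_mul, algHom_C, algebraMap_eq, prime_isUnit_mul hu] using this

end Pool.Agent.Lib.MP_d54a3f_ag
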