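import Pool.Agent.Lib.MP_d54a3f_ag.Lin
import Pool.Agent.Lib.MP_d54a3f_ag.Bez

/-! The lowest degree element of the residual ideal of an ACM curve in a complete intersection. -/

open MvPolynomial Module

namespace Pool.Agent.Lib.MP_d54a3f_ag

variable {k : Type*} [Field k]

/-- polynomials in two linear forms -/
noncomputable def β (l₁ l₂ : S k) : Polynomial (Polynomial k) →+* S k :=
  Polynomial.eval₂RingHom (Polynomial.eval₂RingHom C l₂) l₁

theorem β_X (l₁ l₂ : S k) : β l₁ l₂ Polynomial.X = l₁ := by simp [β]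

theorem β_CX (l₁ l₂ : S k) : β l₁ l₂ (Polynomial.C Polynomial.X) = l₂ := by simp [β]

theorem β_CC (l₁ l₂ : S k) (c : k) : β l₁ l₂ (Polynomial.C (Polynomial.C c)) = C c := by simp [β]

theorem exists_pi {P : Ideal (S k)} (hP : IsHom P) {l₁ l₂ u : S k} (hl₁ : l₁.IsHomogeneous 1)
    (hl₂ : l₂.IsHomogeneous 1) (h₁ : ∀ f, l₁ * f ∈ P → f ∈ P)
    (h₂ : ∀ f, l₂ * f ∈ P ⊔ Ideal.span {l₁} → f ∈ P ⊔ Ideal.span {l₁}) {b : ℕ}
    (hu : u.IsHomogeneous b) (hu' : u ∉ (P ⊔ Ideal.span {l₁}) ⊔ Ideal.span {l₂})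
    [Algebra (Polynomial (Polynomial k)) (S k)]
    (hβ : algebraMap (Polynomial (Polynomial k)) (S k) = β l₁ l₂) :
    ∃ π : (S k ⧸ P) →ₗ[Polynomial (Polynomial k)] Polynomial (Polynomial k),
      π (Ideal.Quotient.mk P u) = 1 := by
  set J := (P ⊔ Ideal.span {l₁}) ⊔ Ideal.span {l₂} with hJ
  have hP₁ := hP.sup (isHom_span1 hl₁)
  have hJh : IsHom J := hP₁.sup (isHom_span1 hl₂)
  obtain ⟨s, hs1, hs2, hs3, hs4⟩ := exists_linearIndepOn_extension (K := k)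
    (v := fun f : S k ↦ Ideal.Quotient.mk J f) (s := {u}) (t := {f | ∃ n, f.IsHomogeneous n})
    (LinearIndepOn.singleton (by rwa [ne_eq, Ideal.Quotient.eq_zero_iff_mem]))
    (Set.singleton_subset_iff.2 ⟨b, hu⟩)
  have hsm (g : Polynomial (Polynomial k)) (f : S k) :
      g • Ideal.Quotient.mk P f = Ideal.Quotient.mk P (β l₁ l₂ g * f) := by
    rw [← hβ, ← Algebra.smul_def]
    rfl
  have hli : LinearIndependent (Polynomial (Polynomial k))
      fun i : s ↦ Ideal.Quotient.mk P (i : S k) := by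
    rw [linearIndependent_iff']
    intro t g hg
    simp only [hsm] at hg
    rw [← map_sum, Ideal.Quotient.eq_zero_iff_mem] at hg
    refine indep_step _ h₁ (fun g hg ↦ indep_step C h₂ (fun g hg ↦ ?_) g hg) g hg
    refine linearIndependent_iff'.1 hs4 t g ?_
    rw [← Ideal.Quotient.eq_zero_iff_mem, map_sum] at hg
    simpa only [← smul_eq_C_mul, ← Ideal.Quotient.mkₐ_eq_mk k, map_smul] using hg
  set M := Submodule.span (Polynomial (Polynomial k))
    (Set.range fun i : s ↦ Ideal.Quotient.mk P (i : S k)) with hM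
  have key (n : ℕ) {f : S k} (hf : f.IsHomogeneous n) :
      ∃ f' : S k, f'.IsHomogeneous n ∧ Ideal.Quotient.mk P f' ∈ M ∧ f - f' ∈ J := by
    have : ∀ z ∈ Submodule.span k ((fun f : S k ↦ Ideal.Quotient.mk J f) '' s), ∃ g : S k,
        Ideal.Quotient.mk J g = z ∧ Ideal.Quotient.mk P (homogeneousComponent n g) ∈ M := by
      intro z hz
      induction hz using Submodule.span_induction with
      | mem z hz =>
        obtain ⟨g, hg, rfl⟩ := hz
        obtain ⟨m, hm⟩ := hs1 hg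
        refine ⟨g, rfl, ?_⟩
        rw [homogeneousComponent_of_mem hm]
        split_ifs
        · exact Submodule.subset_span ⟨⟨g, hg⟩, rfl⟩
        · rw [map_zero]; exact M.zero_mem
      | zero => exact ⟨0, rfl, by rw [map_zero, map_zero]; exact M.zero_mem⟩
      | add a c _ _ ha hc =>
        obtain ⟨g, rfl, hg⟩ := ha
        obtain ⟨g', rfl, hg'⟩ := hc
        exact ⟨g + g', rfl, by rw [map_add, map_add]; exact M.add_mem hg hg'⟩
      | smul c a _ ha =>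
        obtain ⟨g, rfl, hg⟩ := ha
        refine ⟨c • g, rfl, ?_⟩
        rw [map_smul, smul_eq_C_mul, ← β_CC l₁ l₂, ← hsm]
        exact M.smul_mem _ hg
    obtain ⟨g, h1, h2⟩ := this _ (hs3 ⟨f, ⟨n, hf⟩, rfl⟩)
    refine ⟨_, homogeneousComponent_isHomogeneous n g, h2, ?_⟩
    have := hJh _ (Ideal.Quotient.eq.1 h1.symm) n
    rwa [map_sub, comp_self hf] at this
  have hsp (n : ℕ) : ∀ f : S k, f.IsHomogeneous n → Ideal.Quotient.mk P f ∈ M := by
    induction n with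
    | zero =>
      intro f hf
      obtain ⟨f', h1, h2, h3⟩ := key 0 hf
      have := mem_sup_span_lt hP hl₁ (hf.sub h1) one_pos
        (mem_sup_span_lt hP₁ hl₂ (hf.sub h1) one_pos h3)
      rwa [Ideal.Quotient.eq.2 this]
    | succ n ih =>
      intro f hf
      obtain ⟨f', h1, h2, h3⟩ := key _ hf
      have h4 := hf.sub h1
      rw [add_comm] at h4
      obtain ⟨g, hg, h5⟩ := mem_sup_span_hom hP₁ hl₂ h4 h3
      obtain ⟨g', hg', h6⟩ := mem_sup_span_hom hP hl₁ (h4.sub (hl₂.mul hg)) h5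
      have : Ideal.Quotient.mk P f = Ideal.Quotient.mk P (f' + l₂ * g + l₁ * g') :=
        Ideal.Quotient.eq.2 (by convert h6 using 1; ring)
      rw [this, map_add, map_add]
      refine M.add_mem (M.add_mem h2 ?_) ?_
      · have := M.smul_mem (Polynomial.C Polynomial.X) (ih g hg)
        rwa [hsm, β_CX] at this
      · have := M.smul_mem Polynomial.X (ih g' hg')
        rwa [hsm, β_X] at this
  have htop : ⊤ ≤ M := by
    intro z _
    obtain ⟨f, rfl⟩ := Ideal.Quotient.mk_surjective z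
    rw [← sum_homogeneousComponent f, map_sum]
    exact M.sum_mem fun n _ ↦ hsp n _ (homogeneousComponent_isHomogeneous n f)
  refine ⟨(Basis.mk hli htop).coord ⟨u, hs2 rfl⟩, ?_⟩
  have := Basis.mk_coord_apply_eq (hli := hli) (hsp := htop) ⟨u, hs2 rfl⟩
  exact this

/-- the residual form of lowest degree -/
theorem theta0 {P : Ideal (S k)} (hP : IsHom P) {x y l₁ l₂ u F : S k} (hx : x.IsHomogeneous 1)
    (hy : y.IsHomogeneous 1) (hl₁ : l₁.IsHomogeneous 1)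
    (hl₂ : l₂.IsHomogeneous 1) (h₁ : ∀ f, l₁ * f ∈ P → f ∈ P)
    (h₂ : ∀ f, l₂ * f ∈ P ⊔ Ideal.span {l₁} → f ∈ P ⊔ Ideal.span {l₁}) {b e : ℕ}
    (hu : u.IsHomogeneous b) (hu' : u ∉ (P ⊔ Ideal.span {l₁}) ⊔ Ideal.span {l₂})
    (htop : ∀ g : S k, g.IsHomogeneous (1 + b) → g ∈ (P ⊔ Ideal.span {l₁}) ⊔ Ideal.span {l₂})
    {v : Fin 4 → k} (hX : ∀ j, ∃ a b c, X j = C (v j) * y + (C a * x + C b * l₁ + C c * l₂))
    (hyQ : y ^ e ∉ Ideal.span {x, l₁, l₂})
    (hF : F.IsHomogeneous (e + 1)) (hFP : F ∈ P) (hv : eval v F ≠ 0) :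
    ∃ G G' : S k, G.IsHomogeneous (1 + b) ∧ G'.IsHomogeneous e ∧ G' ≠ 0 ∧
      ∀ p ∈ P, G' * p ∈ Ideal.span {F} ⊔ Ideal.span {G} := by
  let : Algebra (Polynomial (Polynomial k)) (S k) := (β l₁ l₂).toAlgebra
  have hβ : algebraMap (Polynomial (Polynomial k)) (S k) = β l₁ l₂ := rfl
  obtain ⟨π, hπ⟩ := exists_pi hP hl₁ hl₂ h₁ h₂ hu hu' hβ
  have hP₁ := hP.sup (isHom_span1 hl₁)
  have red {g : S k} (hg : g.IsHomogeneous (1 + b)) : ∃ v₁ v₂ : S k, v₁.IsHomogeneous b ∧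
      v₂.IsHomogeneous b ∧ g - l₁ * v₁ - l₂ * v₂ ∈ P := by
    obtain ⟨v₂, h1, h2⟩ := mem_sup_span_hom hP₁ hl₂ hg (htop g hg)
    obtain ⟨v₁, h3, h4⟩ := mem_sup_span_hom hP hl₁ (hg.sub (hl₂.mul h1)) h2
    exact ⟨v₁, v₂, h3, h1, by convert h4 using 1; ring⟩
  obtain ⟨v₁, v₂, hv₁, hv₂, hG⟩ := red (hx.mul hu)
  obtain ⟨w₁, w₂, -, -, hW⟩ := red (hy.mul hu)
  have hQ (j : Fin 4) : X j - C (v j) * y ∈ Ideal.span {x, l₁, l₂} := by
    obtain ⟨a, b, c, h⟩ := hX j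
    exact Submodule.mem_span_triple.2 ⟨C a, C b, C c, by rw [h, add_sub_cancel_left]; rfl⟩
  obtain ⟨F₀, F₁, F₂, hFe⟩ := Submodule.mem_span_triple.1 (pt_lemma hQ hF)
  have hFe' : β l₁ l₂ (Polynomial.C (Polynomial.C (eval v F))) * y ^ (e + 1) + x * F₀ +
      β l₁ l₂ Polynomial.X * F₁ + β l₁ l₂ (Polynomial.C Polynomial.X) * F₂ = F := by
    rw [β_X, β_CX, β_CC]
    simp only [smul_eq_mul] at hFe
    linear_combination hFe
  have hgen : Algebra.adjoin (Polynomial (Polynomial k)) {x, y} = ⊤ := by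
    have hm (g : Polynomial (Polynomial k)) :
        β l₁ l₂ g ∈ Algebra.adjoin (Polynomial (Polynomial k)) {x, y} :=
      Subalgebra.algebraMap_mem _ g
    have hC (c : k) : C c ∈ Algebra.adjoin (Polynomial (Polynomial k)) {x, y} :=
      β_CC l₁ l₂ c ▸ hm _
    refine eq_top_iff.2 fun f _ ↦ ?_
    induction f using MvPolynomial.induction_on with
    | C c => exact hC c
    | add f g hf hg => exact add_mem (hf trivial) (hg trivial)
    | mul_X f j hf =>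
      obtain ⟨a, b, c, h⟩ := hX j
      rw [h]
      exact mul_mem (hf trivial) (add_mem (mul_mem (hC _) (Algebra.subset_adjoin (by simp)))
        (add_mem (add_mem (mul_mem (hC _) (Algebra.subset_adjoin (by simp)))
          (mul_mem (hC _) (β_X l₁ l₂ ▸ hm _))) (mul_mem (hC _) (β_CX l₁ l₂ ▸ hm _))))
  obtain ⟨G', h1, h2⟩ := bezoutian P π hgen Polynomial.X (Polynomial.C Polynomial.X)
    (Polynomial.C (Polynomial.C (eval v F))) (u := u) (v₁ := v₁) (v₂ := v₂) (w₁ := w₁) (w₂ := w₂)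
    (F₀ := F₀) (F₁ := F₁) (F₂ := F₂) (e := e) (by rwa [hβ, β_X, β_CX]) (by rwa [hβ, hFe'])
    (by rwa [hβ, β_X, β_CX])
  rw [hβ, hFe', β_X, β_CX] at h1
  rw [hβ, hπ, mul_one, β_X, β_CX, β_CC] at h2
  have hGh : (x * u - l₁ * v₁ - l₂ * v₂).IsHomogeneous (1 + b) :=
    ((hx.mul hu).sub (hl₁.mul hv₁)).sub (hl₂.mul hv₂)
  refine ⟨_, homogeneousComponent e G', hGh, homogeneousComponent_isHomogeneous e G', fun h0 ↦ ?_,
    fun p hp ↦ ?_⟩
  · have h3 := isHom_span (s := {x, l₁, l₂}) (by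
      rintro z (rfl | rfl | rfl)
      exacts [⟨1, hx⟩, ⟨1, hl₁⟩, ⟨1, hl₂⟩]) _ h2 e
    rw [map_sub, h0, zero_sub, homogeneousComponent_C_mul, comp_self (by simpa using hy.pow e),
      neg_mem_iff, Ideal.unit_mul_mem_iff_mem _ ((IsUnit.mk0 _ hv).map C)] at h3
    exact hyQ h3
  · rw [← sum_homogeneousComponent p, Finset.mul_sum]
    refine Ideal.sum_mem _ fun n _ ↦ ?_
    have := ((isHom_span1 hF).sup (isHom_span1 hGh)) _ (h1 _ (hP p hp n)) (n + e)
    rwa [mul_comm G', comp_mul (homogeneousComponent_isHomogeneous n p),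
      mul_comm (homogeneousComponent n p)] at this

theorem IsIntACM.exists_X {P : Ideal (S k)} (hP : IsIntACM P) : ∃ i, X i ∉ P := by
  by_contra! h
  obtain ⟨h1, -, -, a, -, ha, -, h2, -⟩ := hP
  exact h1.ne_top ((Ideal.eq_top_iff_one _).2 (h2 1 (by rw [mul_one]; exact mm_le h ha)))

theorem theta1 [IsAlgClosed k] {P : Ideal (S k)} (hP : IsIntACM P) {F : S k} {e n : ℕ}
    (hF : F.IsHomogeneous (e + 1)) (hFP : F ∈ P) (hF0 : F ≠ 0) (hn : hvec P n ≠ 0) :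
    ¬ P ≤ Ideal.span {F} ∧ ∃ (b : ℕ) (G G' : S k), n ≤ b ∧ G.IsHomogeneous (1 + b) ∧
      G'.IsHomogeneous e ∧ G' ≠ 0 ∧ ∀ p ∈ P, G' * p ∈ Ideal.span {F} ⊔ Ideal.span {G} := by
  obtain ⟨v, hv1, hv⟩ : ∃ v : Fin 4 → k, v 1 = 1 ∧ eval v F ≠ 0 := by
    obtain ⟨v, hv⟩ := exists_eval_ne (mul_ne_zero (X_ne_zero 1) hF0)
    rw [map_mul, eval_X, mul_ne_zero_iff] at hv
    refine ⟨fun j ↦ v j * (v 1)⁻¹, mul_inv_cancel₀ hv.1, ?_⟩
    have := scale v (v 1)⁻¹ hF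
    simp only [aeval_eq_eval] at this
    rw [this]
    exact mul_ne_zero hv.2 (pow_ne_zero _ (inv_ne_zero hv.1))
  let z : Fin 4 → S k := fun j ↦ X j - C (v j) * X 1
  have hz (j : Fin 4) : (z j).IsHomogeneous 1 :=
    (isHomogeneous_X k j).sub ((isHomogeneous_X k 1).C_mul _)
  have hall {Q : Ideal (S k)} (hQ : Q.IsPrime) (hFQ : F ∈ Q) (h0 : z 0 ∈ Q) (h2 : z 2 ∈ Q)
      (h3 : z 3 ∈ Q) (j : Fin 4) : X j ∈ Q := by
    refine all_X_mem (v := v) (t := X 1) hQ (fun j ↦ ?_) hF hFQ hv j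
    fin_cases j
    exacts [h0, by simp [hv1], h2, h3]
  obtain ⟨a, a', hl₁P⟩ : ∃ a a' : k, z 2 + C a * z 0 + C a' * z 3 ∉ P := by
    by_contra! h
    obtain ⟨i, hi⟩ := hP.exists_X
    have h2 : z 2 ∈ P := by simpa using h 0 0
    exact hi (hall hP.1 hFP (by simpa using P.sub_mem (h 1 0) h2) h2
      (by simpa using P.sub_mem (h 0 1) h2) i)
  set l₁ := z 2 + C a * z 0 + C a' * z 3 with hl₁e
  have hl₁ : l₁.IsHomogeneous 1 := ((hz 2).add ((hz 0).C_mul _)).add ((hz 3).C_mul _)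
  obtain ⟨𝒬, hfin, h𝒬, hreg⟩ := (hP.sat hl₁P).exists_primes
  obtain ⟨c, hc⟩ := (avoid hfin (x := z 3) (y := z 0) fun Q hQ h3 h0 ↦ by
    obtain ⟨h4, h5, i, hi⟩ := h𝒬 Q hQ
    refine hi (hall h4 (h5 (Ideal.mem_sup_left hFP)) h0 ?_ h3 i)
    have := Q.sub_mem (Q.sub_mem (h5 (mem_sup_span_self P l₁)) (Q.mul_mem_left (C a') h3))
      (Q.mul_mem_left (C a) h0)
    simpa [hl₁e] using this).exists_notMem
  set l₂ := z 3 + C c * z 0 with hl₂e
  have hl₂ : l₂.IsHomogeneous 1 := (hz 3).add ((hz 0).C_mul _)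
  have h₁ : ∀ f, l₁ * f ∈ P → f ∈ P := fun f hf ↦ (hP.1.mem_or_mem hf).resolve_left hl₁P
  have h₂ := hreg l₂ fun Q hQ h ↦ hc ⟨Q, hQ, h⟩
  have hprim : Prim ((P ⊔ Ideal.span {l₁}) ⊔ Ideal.span {l₂}) := by
    refine prim_of_avoid hP.1 hP.2.hom hP.2.ch3 hl₁ hl₂ hl₁P fun Q hQ _ h ↦ ?_
    obtain ⟨y, h1, h2⟩ := Ideal.exists_mul_mem_of_mem_minimalPrimes hQ h
    exact h1 (h₂ y h2)
  have hl₂0 : l₂ ≠ 0 := fun h ↦ hP.sec_ne_top hl₁
    ((Ideal.eq_top_iff_one _).2 (h₂ 1 (by rw [h, zero_mul]; exact zero_mem _)))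
  rw [hvec_eq hP.2.hom hl₁ hl₂ (fun h ↦ hl₁P (h ▸ P.zero_mem)) hl₂0 h₁ h₂, Nat.cast_ne_zero] at hn
  obtain ⟨N, hN⟩ := hprim.deg
  have hbd : BddAbove {m | hilb ((P ⊔ Ideal.span {l₁}) ⊔ Ideal.span {l₂}) m ≠ 0} :=
    ⟨N, fun m hm ↦ le_of_not_ge fun h ↦ hm (hilb_eq_zero_iff.2 (hN m h))⟩
  have hb := Nat.sSup_mem ⟨n, hn⟩ hbd
  have hle := fun m hm ↦ le_csSup hbd (a := m) hm
  generalize sSup {m | hilb ((P ⊔ Ideal.span {l₁}) ⊔ Ideal.span {l₂}) m ≠ 0} = b at hb hle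
  have htop := hilb_eq_zero_iff.1 (not_not.1 fun h ↦ absurd (hle (1 + b) h) (by omega))
  rw [Set.mem_ofPred_eq, ne_eq, hilb_eq_zero_iff] at hb
  push Not at hb
  obtain ⟨u, hu, hu'⟩ := hb
  refine ⟨fun hPF ↦ ?_, ?_⟩
  · let o : Fin 4 → k := ![1, 0, a' * c - a, -c]
    obtain ⟨h1, h2⟩ := lead o v hF
    obtain ⟨t, ht⟩ := IsAlgClosed.exists_root (aeval (fun j ↦ Polynomial.C (o j) +
      Polynomial.C (v j) * Polynomial.X) F) (fun h ↦ by
      rw [Polynomial.eq_C_of_degree_eq_zero h, Polynomial.coeff_C, if_neg e.succ_ne_zero] at h2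
      exact hv h2.symm)
    have hker : (P ⊔ Ideal.span {l₁}) ⊔ Ideal.span {l₂} ≤
        RingHom.ker (eval fun j ↦ o j + v j * t) := by
      refine sup_le (sup_le (hPF.trans ?_) ?_) ?_ <;>
        rw [Ideal.span_singleton_le_iff_mem, RingHom.mem_ker]
      · have := comp_aeval_apply (f := fun j ↦ Polynomial.C (o j) + Polynomial.C (v j) *
          Polynomial.X) (Polynomial.aeval t) F
        simp only [map_add, map_mul, Polynomial.aeval_C, Polynomial.aeval_X, Algebra.algebraMap_self,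
          RingHom.id_apply, aeval_eq_eval, Polynomial.coe_aeval_eq_eval] at this
        rw [← this]
        exact ht
      · simp [hl₁e, z, o, hv1]
      · simp [hl₂e, z, o, hv1]
    have hp := (RingHom.ker_isPrime (eval fun j ↦ o j + v j * t)).radical_le_iff.2 hker
    have h3 := hp (hprim 0)
    have h4 := hp (hprim 1)
    simp only [RingHom.mem_ker, eval_X, o, hv1] at h3 h4
    simp at h3 h4
    simp [h4] at h3
  · refine (theta0 hP.2.hom (hz 0) (isHomogeneous_X k 1) hl₁ hl₂ h₁ h₂ hu hu' htop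
      (v := v) (fun j ↦ ?_) (fun h ↦ ?_) hF hFP hv).elim fun G h ↦ h.elim fun G' h ↦
        ⟨b, G, G', hle n hn, h⟩
    · fin_cases j
      · exact ⟨1, 0, 0, by simp [z]⟩
      · exact ⟨0, 0, 0, by simp [hv1]⟩
      · refine ⟨a' * c - a, 1, -a', ?_⟩
        simp only [hl₁e, hl₂e, z, map_sub, map_mul, map_neg, map_one]
        change X 2 = C (v 2) * _ + _
        ring
      · refine ⟨-c, 0, 1, ?_⟩
        simp only [hl₁e, hl₂e, z, map_neg, map_one, map_zero]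
        change X 3 = C (v 3) * _ + _
        ring
    · have : Ideal.span {z 0, l₁, l₂} ≤ RingHom.ker (eval v) := by
        rw [Ideal.span_le]
        rintro _ (rfl | rfl | rfl) <;> simp [hl₁e, hl₂e, z, hv1]
      simpa [hv1] using this h

/-- the rational function of degree `-1` with poles exactly along the curve -/
theorem exists_theta [IsAlgClosed k] {P : Ideal (S k)} (hP : IsIntACM P) {F T : S k} {f t n : ℕ}
    (hF : F.IsHomogeneous f) (hFP : F ∈ P) (hp : Prime F) (hT : T.IsHomogeneous t) (hTP : T ∉ P)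
    (hn : hvec P n ≠ 0) (hle : f + t ≤ n + 1) :
    ∃ (G G' : S k) (d : ℕ), G.IsHomogeneous (d + 1) ∧ G'.IsHomogeneous d ∧ ¬ F ∣ G * G' ∧
      (∀ p ∈ P, ∃ r ∈ Ideal.span {T}, G' * p - G * r ∈ Ideal.span {F}) ∧
      ∃ p ∈ P, ∃ (r : S k) (m : ℕ), r.IsHomogeneous m ∧ r ∉ P ∧
        G' * p - G * r ∈ Ideal.span {F} := by
  obtain ⟨e, rfl⟩ := Nat.exists_eq_succ_of_ne_zero (deg_pos hp hF)
  obtain ⟨hnle, b, G, G', hb, hG, hG', h0, hrel⟩ := theta1 hP hF hFP hp.ne_zero hn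
  have hI := (Ideal.span_singleton_prime hp.ne_zero).2 hp
  have hIh := isHom_span1 hF
  have hIP : Ideal.span {F} ≤ P := (Ideal.span_singleton_le_iff_mem _).2 hFP
  have hG'I : G' ∉ Ideal.span {F} := fun h ↦ h0 (Ideal.mem_bot.1
    (mem_sup_span_lt (I := ⊥) (fun f hf n ↦ by simp_all) hF hG' e.lt_succ_self
      (Ideal.mem_sup_right h)))
  have hex : ∃ d, ∃ p ∈ P, p.IsHomogeneous d ∧ p ∉ Ideal.span {F} := by
    by_contra! h
    exact hnle fun p hp ↦ IsHom.mem_of_comp fun n ↦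
      h n _ (hP.2.hom p hp n) (homogeneousComponent_isHomogeneous n p)
  classical
  obtain ⟨p, hp1, hp2, hp3⟩ := Nat.find_spec hex
  have hmin := fun m ↦ Nat.find_min hex (m := m)
  generalize Nat.find hex = d at hp2 hmin
  have hGp : G' * p ∉ Ideal.span {F} := fun h ↦ (hI.mem_or_mem h).elim hG'I hp3
  obtain ⟨m, hm⟩ := Nat.exists_eq_add_of_le (not_lt.1 fun h ↦
    hGp (mem_sup_span_lt hIh hG (hG'.mul hp2) h (hrel p hp1)))
  obtain ⟨r, hr1, hr2⟩ := mem_sup_span_hom hIh hG (hm ▸ hG'.mul hp2) (hrel p hp1)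
  have hGr : G * r ∉ Ideal.span {F} := fun h ↦ hGp (by simpa using Ideal.add_mem _ hr2 h)
  have hrP : r ∉ P := fun h ↦ hmin m (by omega) ⟨r, h, hr1, fun h ↦ hGr (Ideal.mul_mem_left _ _ h)⟩
  obtain ⟨i, hi⟩ := hP.exists_X
  obtain ⟨j, hj⟩ := Nat.exists_eq_add_of_le (show e + t ≤ b by omega)
  have hU : T * X i ^ j ∉ P := fun h ↦
    (hP.1.mem_or_mem h).elim hTP fun h ↦ hi (hP.1.mem_of_pow_mem _ h)
  have hUh : (T * X i ^ j).IsHomogeneous (t + j) :=
    hT.mul (by simpa using (isHomogeneous_X k i).pow j)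
  have conv {p r : S k} (h : G' * p - G * r ∈ Ideal.span {F}) :
      G' * (T * X i ^ j) * p - G * (T * X i ^ j * r) ∈ Ideal.span {F} := by
    convert Ideal.mul_mem_left _ (T * X i ^ j) h using 1
    ring
  refine ⟨G, G' * (T * X i ^ j), b, add_comm 1 b ▸ hG, by rw [hj, add_assoc]; exact hG'.mul hUh,
    fun h ↦ ?_, fun q hq ↦ ?_, p, hp1, _, _, hUh.mul hr1,
    fun h ↦ (hP.1.mem_or_mem h).elim hU hrP, conv hr2⟩
  · rcases hI.mem_or_mem (Ideal.mem_span_singleton.2 h) with h | h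
    · exact hGr (Ideal.mul_mem_right _ _ h)
    · exact (hI.mem_or_mem h).elim hG'I fun h ↦ hU (hIP h)
  · obtain ⟨s, hs⟩ := mem_sup_span.1 (hrel q hq)
    exact ⟨_, Ideal.mul_mem_right _ _ (Ideal.mul_mem_right _ _ (Ideal.mem_span_singleton_self T)),
      conv hs⟩

end Pool.Agent.Lib.MP_d54a3f_ag
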